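import Pool.Agent.Lib.MP_a150d7_gt.Defs

namespace Pool.Agent.Lib.MP_a150d7_gt

variable {𝔤 : Type*} [LieRing 𝔤] [LieAlgebra ℝ 𝔤]

/-- The derived space `U' = [U, U]`: the span of all brackets `⁅a, b⁆` with `a, b ∈ U`. -/
def derSpan (U : Submodule ℝ 𝔤) : Submodule ℝ 𝔤 :=
  Submodule.span ℝ {v | ∃ a ∈ U, ∃ b ∈ U, v = ⁅a, b⁆}

/-- The `J`-derived chain `C₀ = 𝔤`, `C_{k+1} = C_k' + J C_k'`. -/
def jChain (J : 𝔤 →ₗ[ℝ] 𝔤) : ℕ → Submodule ℝ 𝔤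
  | 0 => ⊤
  | k + 1 => derSpan (jChain J k) ⊔ (derSpan (jChain J k)).map J

/-- The subspace `(U' ∩ J⁻¹ U') + U'' + J U''`. -/
def siegelPart (J : 𝔤 →ₗ[ℝ] 𝔤) (U : Submodule ℝ 𝔤) : Submodule ℝ 𝔤 :=
  (derSpan U ⊓ (derSpan U).comap J) ⊔
    (derSpan (derSpan U) ⊔ (derSpan (derSpan U)).map J)

end Pool.Agent.Lib.MP_a150d7_gt
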