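import Mathlib

namespace Pool.Agent.Lib.MP_a150d7_gt

variable {𝔤 : Type*} [LieRing 𝔤] [LieAlgebra ℝ 𝔤]

/-- A left-invariant Hermitian structure, on the Lie algebra: `g` is an inner product, `J` is an
integrable complex structure, and `g` is `J`-invariant. -/
structure IsHermitianStructure (g : 𝔤 →ₗ[ℝ] 𝔤 →ₗ[ℝ] ℝ) (J : 𝔤 →ₗ[ℝ] 𝔤) : Prop where
  symm : ∀ x y, g x y = g y x
  pos : ∀ x, x ≠ 0 → 0 < g x x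
  sq_J : ∀ x, J (J x) = -x
  invariant : ∀ x y, g (J x) (J y) = g x y
  integrable : ∀ x y, ⁅x, y⁆ - ⁅J x, J y⁆ + J ⁅J x, y⁆ + J ⁅x, J y⁆ = 0

/-- Torsion of a left-invariant connection `D` (`D x y` stands for `∇_x y`). -/
def torsion (D : 𝔤 →ₗ[ℝ] 𝔤 →ₗ[ℝ] 𝔤) (x y : 𝔤) : 𝔤 := D x y - D y x - ⁅x, y⁆

/-- Curvature of a left-invariant connection. -/
def curv (D : 𝔤 →ₗ[ℝ] 𝔤 →ₗ[ℝ] 𝔤) (x y z : 𝔤) : 𝔤 := D x (D y z) - D y (D x z) - D ⁅x, y⁆ z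

/-- `D` is the Chern connection of `(g, J)`: `∇g = 0`, `∇J = 0` and the `(1,1)`-part of the
torsion vanishes. -/
structure IsChernConnection (g : 𝔤 →ₗ[ℝ] 𝔤 →ₗ[ℝ] ℝ) (J : 𝔤 →ₗ[ℝ] 𝔤)
    (D : 𝔤 →ₗ[ℝ] 𝔤 →ₗ[ℝ] 𝔤) : Prop where
  metric : ∀ x y z, g (D x y) z + g y (D x z) = 0
  complex : ∀ x y, D x (J y) = J (D x y)
  torsion_type : ∀ x y, torsion D (J x) y = torsion D x (J y)

/-- Holomorphic sectional curvature `R(x, Jx, Jx, x) / |x|⁴` of the connection `D`. -/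
noncomputable def holSec (g : 𝔤 →ₗ[ℝ] 𝔤 →ₗ[ℝ] ℝ) (J : 𝔤 →ₗ[ℝ] 𝔤) (D : 𝔤 →ₗ[ℝ] 𝔤 →ₗ[ℝ] 𝔤)
    (x : 𝔤) : ℝ := g (curv D x (J x) (J x)) x / (g x x) ^ 2

end Pool.Agent.Lib.MP_a150d7_gt
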