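import Pool.Agent.Lib.MP_a150d7_gt.Mg.G002
import Pool.Agent.Lib.MP_a150d7_gt.Defs

open Module
open scoped InnerProductSpace

namespace Pool.Agent.Lib.MP_a150d7_gt

section inner
variable {E : Type*} [NormedAddCommGroup E] [InnerProductSpace ℝ E] [FiniteDimensional ℝ E]

namespace HermLie

variable {br : E →ₗ[ℝ] E →ₗ[ℝ] E} {J : E →ₗ[ℝ] E} (h : HermLie br J)
  {D : E →ₗ[ℝ] E →ₗ[ℝ] E}
  (hm : ∀ x y z, ⟪D x y, z⟫_ℝ + ⟪y, D x z⟫_ℝ = 0)
  (hJ : ∀ x y, D x (J y) = J (D x y))
  (hT : ∀ x y, D (J x) y - D y (J x) - br (J x) y = D x (J y) - D (J y) x - br x (J y))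
include h hJ hT

theorem D_half (x y : E) : Ac br J x y = (1 / 2 : ℝ) • (D x y + J (D (J x) y)) := by
  -- torsion
  let T : E → E → E := fun x y => D x y - D y x - br x y
  have hT' : ∀ x y, T (J x) y = T x (J y) := hT
  have hN : T x y + J (T (J x) y) = 0 := by
    have h1 := h.integ' x y
    have h2 : T (J x) (J y) = -T x y := by
      rw [hT']; simp only [T, h.JJ, map_neg, LinearMap.neg_apply]; abel
    -- express the bracket through the torsion
    have b : ∀ x y, br x y = D x y - D y x - T x y := fun x y => by simp only [T]; abel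
    have h3 : J (br (J x) y + br x (J y)) = J (D (J x) y) - J (D y (J x)) - J (T (J x) y) +
        (J (D x (J y)) - J (D (J y) x) - J (T x (J y))) := by
      rw [b (J x) y, b x (J y)]; simp only [map_add, map_sub]
    rw [h3, b (J x) (J y), b x y, h2, ← hT' x y] at h1
    simp only [hJ, h.JJ] at h1
    have h4 : (2 : ℝ) • (T x y + J (T (J x) y)) = 0 := by
      have h5 := sub_eq_zero.2 h1
      rw [← neg_eq_zero, ← h5]
      module
    exact (smul_eq_zero.1 h4).resolve_left (by norm_num)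
  have b1 : br x y = D x y - D y x - T x y := by simp only [T]; abel
  have b2 : br (J x) y = D (J x) y - D y (J x) - T (J x) y := by simp only [T]; abel
  rw [Ac_apply, b1, b2]
  congr 1
  simp only [map_sub, hJ, h.JJ]
  calc D x y - D y x - T x y + (J (D (J x) y) - -D y x - J (T (J x) y))
      = D x y + J (D (J x) y) - (T x y + J (T (J x) y)) := by abel
    _ = _ := by rw [hN, sub_zero]

include hm

theorem D_eq (x y : E) : D x y = Ac br J x y - At (Ac br J) x y := by
  have h1 : At (Ac br J) x y = (1 / 2 : ℝ) • (-D x y + J (D (J x) y)) := by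
    refine ext_inner_right ℝ fun z => ?_
    rw [inner_At, h.D_half hJ hT, inner_smul_right, inner_smul_left, inner_add_right,
      inner_add_left]
    have e1 := hm x y z
    have e2 := hm (J x) (J y) z
    rw [hJ] at e2
    have e3 := h.innerJ y (D (J x) z)
    simp only [inner_neg_left, conj_trivial]
    have e4 : ⟪y, J (D (J x) z)⟫_ℝ = ⟪J (D (J x) y), z⟫_ℝ := by linarith
    have e5 : ⟪y, D x z⟫_ℝ = -⟪D x y, z⟫_ℝ := by linarith
    rw [e4, e5]
  rw [h1, h.D_half hJ hT]
  module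

theorem curv_hol (x : E) :
    ⟪D x (D (J x) (J x)) - D (J x) (D x (J x)) - D (br x (J x)) (J x), x⟫_ℝ =
      2 * Qf (Ac br J) x := by
  have hc := h.chern
  have e1 : ∀ u w, D (J u) (J w) = Ac br J u w + At (Ac br J) u w := by
    intro u w
    rw [h.D_eq hm hJ hT, hc.A1, hc.A2, hc.At1, hc.At2, h.JJ, h.JJ]
    abel
  have e2 : D x (J x) = J (Ac br J x x - At (Ac br J) x x) := by
    rw [hJ, h.D_eq hm hJ hT]
  have e3 : br x (J x) = (2 : ℝ) • J (Ac br J x x) := by
    rw [Ac_apply, h.self, zero_add, map_smul, h.JJ, smul_smul, h.skew (J x) x, neg_neg]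
    norm_num
  have e4 : D x (D (J x) (J x)) = Ac br J x (Ac br J x x + At (Ac br J) x x) -
      At (Ac br J) x (Ac br J x x + At (Ac br J) x x) := by
    rw [e1, h.D_eq hm hJ hT]
  have e5 : D (J x) (D x (J x)) = Ac br J x (Ac br J x x - At (Ac br J) x x) +
      At (Ac br J) x (Ac br J x x - At (Ac br J) x x) := by
    rw [e2, e1]
  have e6 : D (br x (J x)) (J x) = (2 : ℝ) • (Ac br J (Ac br J x x) x +
      At (Ac br J) (Ac br J x x) x) := by
    rw [e3, map_smul, LinearMap.smul_apply, e1]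
  have n1 : ⟪Ac br J x (At (Ac br J) x x), x⟫_ℝ = ‖At (Ac br J) x x‖ ^ 2 := by
    rw [← inner_At', real_inner_self_eq_norm_sq]
  have n2 : ⟪At (Ac br J) x (Ac br J x x), x⟫_ℝ = ‖Ac br J x x‖ ^ 2 := by
    rw [inner_At, real_inner_self_eq_norm_sq]
  have n3 : ⟪At (Ac br J) (Ac br J x x) x, x⟫_ℝ = ⟪Ac br J (Ac br J x x) x, x⟫_ℝ := by
    rw [inner_At, real_inner_comm]
  rw [e4, e5, e6]
  unfold Qf
  simp only [map_add, map_sub, inner_add_left, inner_sub_left, inner_smul_left, conj_trivial]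
  rw [n1, n2, n3]
  ring

/-- Main theorem in the language of inner product spaces. -/
theorem main [Nontrivial E] (hab : ∀ a b c d, br (br a b) (br c d) = 0)
    (huni : ∀ x, LinearMap.trace ℝ E (br x) = 0) {c : ℝ}
    (hc : ∀ x, ⟪D x (D (J x) (J x)) - D (J x) (D x (J x)) - D (br x (J x)) (J x), x⟫_ℝ =
      c * ‖x‖ ^ 4) :
    c = 0 ∧ ∀ x y z, D x (D y z) - D y (D x z) - D (br x y) z = 0 := by
  have hab' : ∀ n ∈ dn br, ∀ n' ∈ dn br, br n n' = 0 := by
    intro n hn n' hn'
    induction hn using Submodule.span_induction with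
    | mem n hn =>
      obtain ⟨a, b, rfl⟩ := hn
      induction hn' using Submodule.span_induction with
      | mem n' hn' => obtain ⟨c, d, rfl⟩ := hn'; exact hab a b c d
      | zero => rw [map_zero]
      | add u v _ _ hu hv => rw [map_add, hu, hv, add_zero]
      | smul r u _ hu => rw [map_smul, hu, smul_zero]
    | zero => rw [map_zero, LinearMap.zero_apply]
    | add u v _ _ hu hv => rw [map_add, LinearMap.add_apply, hu, hv, add_zero]
    | smul r u _ hu => rw [map_smul, LinearMap.smul_apply, hu, smul_zero]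
  have hQ : ∀ x, Qf (Ac br J) x = (c / 2) * ‖x‖ ^ 4 := by
    intro x
    have h1 := hc x
    rw [h.curv_hol hm hJ hT] at h1
    linarith
  have h0 : c / 2 = 0 := h.c_zero hab' huni hQ
  have hc0 : c = 0 := by linarith
  have hQ0 : ∀ x, Qf (Ac br J) x = 0 := fun x => by rw [hQ, h0, zero_mul]
  refine ⟨hc0, fun x y z => ?_⟩
  have hD : ∀ x z, D x z = (Ac br J x - At (Ac br J) x) z := fun x z => by
    rw [h.D_eq hm hJ hT, LinearMap.sub_apply]
  rw [hD x, hD y z, hD y, hD x z, hD (br x y)]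
  exact h.flat hab' huni hQ0 x y z

end HermLie

end inner

/-- Main theorem for Lie algebras. -/
theorem main_lie {𝔤 : Type*} [LieRing 𝔤] [LieAlgebra ℝ 𝔤] [FiniteDimensional ℝ 𝔤] [Nontrivial 𝔤]
    (g : 𝔤 →ₗ[ℝ] 𝔤 →ₗ[ℝ] ℝ) (J : 𝔤 →ₗ[ℝ] 𝔤) (hgJ : IsHermitianStructure g J)
    (hsolv : ∀ a b c d : 𝔤, ⁅⁅a, b⁆, ⁅c, d⁆⁆ = 0)
    (huni : ∀ x : 𝔤, LinearMap.trace ℝ 𝔤 (LieAlgebra.ad ℝ 𝔤 x) = 0)
    (D : 𝔤 →ₗ[ℝ] 𝔤 →ₗ[ℝ] 𝔤) (hD : IsChernConnection g J D)
    (c : ℝ) (hc : ∀ x, x ≠ 0 → holSec g J D x = c) :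
    c = 0 ∧ ∀ x y z, curv D x y z = 0 := by
  let core : InnerProductSpace.Core ℝ 𝔤 :=
    { inner := fun x y => g x y
      conj_inner_symm := fun x y => by simp only [conj_trivial]; exact hgJ.symm y x
      re_inner_nonneg := fun x => by
        by_cases hx : x = 0
        · subst hx; simp
        · exact (hgJ.pos x hx).le
      add_left := fun x y z => by simp only [map_add, LinearMap.add_apply]
      smul_left := fun x y r => by simp only [map_smul, LinearMap.smul_apply, smul_eq_mul,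
        conj_trivial]
      definite := fun x hx => by
        by_contra hne
        exact absurd hx (hgJ.pos x hne).ne' }
  letI i1 : NormedAddCommGroup 𝔤 := core.toNormedAddCommGroup
  letI i2 : InnerProductSpace ℝ 𝔤 := InnerProductSpace.ofCore core.toCore
  have hin : ∀ x y : 𝔤, ⟪x, y⟫_ℝ = g x y := fun x y => rfl
  let br : 𝔤 →ₗ[ℝ] 𝔤 →ₗ[ℝ] 𝔤 := (LieAlgebra.ad ℝ 𝔤 : 𝔤 →ₗ[ℝ] Module.End ℝ 𝔤)
  have hbr : ∀ x y, br x y = ⁅x, y⁆ := fun x y => rfl
  have hH : HermLie br J :=
    { self := fun x => by rw [hbr, lie_self]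
      jacobi := fun x y z => by rw [hbr, hbr, hbr, hbr, hbr, hbr, leibniz_lie]
      JJ := hgJ.sq_J
      isoJ := fun x y => by rw [hin, hin, hgJ.invariant]
      integ := fun x y => by
        rw [hbr, hbr, hbr, hbr, map_add, ← add_assoc]; exact hgJ.integrable x y }
  have hT : ∀ x y, D (J x) y - D y (J x) - br (J x) y = D x (J y) - D (J y) x - br x (J y) :=
    fun x y => hD.torsion_type x y
  have hn : ∀ x : 𝔤, ‖x‖ ^ 4 = (g x x) ^ 2 := by
    intro x
    have : ‖x‖ ^ 2 = g x x := by rw [← hin, real_inner_self_eq_norm_sq]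
    rw [← this]; ring
  have hc' : ∀ x, ⟪D x (D (J x) (J x)) - D (J x) (D x (J x)) - D (br x (J x)) (J x), x⟫_ℝ =
      c * ‖x‖ ^ 4 := by
    intro x
    rw [hn]
    by_cases hx : x = 0
    · subst hx; simp
    · have h1 := hc x hx
      unfold holSec at h1
      have h2 := (hgJ.pos x hx).ne'
      rw [div_eq_iff (pow_ne_zero 2 h2)] at h1
      exact h1
  exact hH.main (D := D) (fun x y z => hD.metric x y z) hD.complex hT (fun a b c d => hsolv a b c d)
    huni hc'

end Pool.Agent.Lib.MP_a150d7_gt
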