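import Pool.Agent.Lib.MP_a150d7_gt.SDefs

namespace Pool.Agent.Lib.MP_a150d7_gt

variable {𝔤 : Type*} [LieRing 𝔤] [LieAlgebra ℝ 𝔤]

/-- `D` is the Levi-Civita connection of `g`: `∇g = 0` and the torsion vanishes. -/
structure IsLeviCivita (g : 𝔤 →ₗ[ℝ] 𝔤 →ₗ[ℝ] ℝ) (D : 𝔤 →ₗ[ℝ] 𝔤 →ₗ[ℝ] 𝔤) : Prop where
  metric : ∀ x y z, g (D x y) z + g y (D x z) = 0
  torsion_free : ∀ x y, torsion D x y = 0

end Pool.Agent.Lib.MP_a150d7_gt
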