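import Pool.Agent.Lib.MP_a150d7_gt.Mg.G003
import Pool.Agent.Lib.MP_a150d7_gt.LCDefs

open Module
open scoped InnerProductSpace

namespace Pool.Agent.Lib.MP_a150d7_gt

/-- Main theorem for Lie algebras, Levi-Civita connection. -/
theorem lc_main_lie {𝔤 : Type*} [LieRing 𝔤] [LieAlgebra ℝ 𝔤] [FiniteDimensional ℝ 𝔤] [Nontrivial 𝔤]
    (g : 𝔤 →ₗ[ℝ] 𝔤 →ₗ[ℝ] ℝ) (J : 𝔤 →ₗ[ℝ] 𝔤) (hgJ : IsHermitianStructure g J)
    (hNS : ∀ k, jChain J (k + 1) = jChain J k → jChain J k ≠ ⊥ →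
      siegelPart J (jChain J k) ≠ jChain J k)
    (D : 𝔤 →ₗ[ℝ] 𝔤 →ₗ[ℝ] 𝔤) (hD : IsLeviCivita g D)
    (c : ℝ) (hsign : 0 ≤ c ∨ ∃ y : 𝔤, y ≠ 0 ∧ ∀ z : 𝔤, ⁅y, z⁆ = 0)
    (hc : ∀ x, x ≠ 0 → holSec g J D x = c) :
    c = 0 ∧ ∀ x y z, curv D x y z = 0 := by
  let core : InnerProductSpace.Core ℝ 𝔤 :=
    { inner := fun x y => g x y
      conj_inner_symm := fun x y => by simp only [conj_trivial]; exact hgJ.symm y x
      re_inner_nonneg := fun x => by
        by_cases hx : x = 0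
        · subst hx; simp
        · exact (hgJ.pos x hx).le
      add_left := fun x y z => by simp only [map_add, LinearMap.add_apply]
      smul_left := fun x y r => by simp only [map_smul, LinearMap.smul_apply, smul_eq_mul,
        conj_trivial]
      definite := fun x hx => by
        by_contra hne
        exact absurd hx (hgJ.pos x hne).ne' }
  let i1 : NormedAddCommGroup 𝔤 := core.toNormedAddCommGroup
  let i2 : InnerProductSpace ℝ 𝔤 := InnerProductSpace.ofCore core.toCore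
  have hin : ∀ x y : 𝔤, ⟪x, y⟫_ℝ = g x y := fun x y => rfl
  let br : 𝔤 →ₗ[ℝ] 𝔤 →ₗ[ℝ] 𝔤 := (LieAlgebra.ad ℝ 𝔤 : 𝔤 →ₗ[ℝ] Module.End ℝ 𝔤)
  have hbr : ∀ x y, br x y = ⁅x, y⁆ := fun x y => rfl
  have hH : HermLie br J :=
    { self := fun x => by rw [hbr, lie_self]
      jacobi := fun x y z => by rw [hbr, hbr, hbr, hbr, hbr, hbr, leibniz_lie]
      JJ := hgJ.sq_J
      isoJ := fun x y => by rw [hin, hin, hgJ.invariant]
      integ := fun x y => by
        rw [hbr, hbr, hbr, hbr, map_add, ← add_assoc]; exact hgJ.integrable x y }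
  have hT : ∀ x y, D x y - D y x = br x y := fun x y => sub_eq_zero.1 (hD.torsion_free x y)
  have hn : ∀ x : 𝔤, ‖x‖ ^ 4 = (g x x) ^ 2 := by
    intro x
    have : ‖x‖ ^ 2 = g x x := by rw [← hin, real_inner_self_eq_norm_sq]
    rw [← this]; ring
  have hc' : ∀ x, ⟪D x (D (J x) (J x)) - D (J x) (D x (J x)) - D (br x (J x)) (J x), x⟫_ℝ =
      c * ‖x‖ ^ 4 := by
    intro x
    rw [hn]
    by_cases hx : x = 0
    · subst hx; simp
    · have h1 := hc x hx
      unfold holSec at h1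
      have h2 := (hgJ.pos x hx).ne'
      rw [div_eq_iff (pow_ne_zero 2 h2)] at h1
      exact h1
  have hch : ∀ k, Jch br J k = jChain J k := by
    intro k
    induction k with
    | zero => rfl
    | succ k ih =>
      show jd br J (Jch br J k) = _
      rw [ih]; rfl
  have hww : ∀ U : Submodule ℝ 𝔤, ww br J U = siegelPart J U := by
    intro U
    apply le_antisymm
    · refine sup_le (sup_le le_sup_left (le_sup_left.trans le_sup_right)) ?_
      rw [Submodule.map_le_iff_le_comap]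
      refine sup_le ?_ ?_
      · intro v hv
        refine Submodule.mem_sup_left ⟨hv.2, ?_⟩
        show J (J v) ∈ derSpan U
        rw [hgJ.sq_J]
        exact Submodule.neg_mem _ hv.1
      · intro v hv
        exact Submodule.mem_sup_right (Submodule.mem_sup_right (Submodule.mem_map_of_mem hv))
    · refine sup_le (le_sup_left.trans le_sup_left) (sup_le (le_sup_right.trans le_sup_left) ?_)
      exact (Submodule.map_mono le_sup_right).trans le_sup_right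
  have hNS' : ∀ k, Jch br J (k + 1) = Jch br J k → Jch br J k ≠ ⊥ →
      ww br J (Jch br J k) ≠ Jch br J k := by
    intro k
    rw [hch, hch, hww]
    exact hNS k
  exact hH.lc_main hNS' (D := D) (fun x y z => hD.metric x y z) hT hsign hc'

/-- In a nilpotent Lie algebra no nonzero subspace `C` satisfies `C ⊆ C' + J C'`. -/
theorem bot_of_nilpotent {𝔤 : Type*} [LieRing 𝔤] [LieAlgebra ℝ 𝔤] [LieRing.IsNilpotent 𝔤]
    (J : 𝔤 →ₗ[ℝ] 𝔤) (sq_J : ∀ x, J (J x) = -x)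
    (integrable : ∀ x y : 𝔤, ⁅x, y⁆ - ⁅J x, J y⁆ + J ⁅J x, y⁆ + J ⁅x, J y⁆ = 0)
    (C : Submodule ℝ 𝔤) (hC : C ≤ derSpan C ⊔ (derSpan C).map J) : C = ⊥ := by
  have key : ∀ n, C ≤ (LieModule.lowerCentralSeries ℝ 𝔤 𝔤 n).toSubmodule ⊔
      ((LieModule.lowerCentralSeries ℝ 𝔤 𝔤 n).toSubmodule).map J := by
    intro n
    induction n with
    | zero =>
      rw [LieModule.lowerCentralSeries_zero]
      exact le_top.trans le_sup_left
    | succ n ih =>
      set L := (LieModule.lowerCentralSeries ℝ 𝔤 𝔤 (n + 1)).toSubmodule with hL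
      have hJinv : ∀ x ∈ L ⊔ L.map J, J x ∈ L ⊔ L.map J := by
        intro x hx
        obtain ⟨u, hu, v, hv, rfl⟩ := Submodule.mem_sup.1 hx
        obtain ⟨w, hw, rfl⟩ := hv
        rw [map_add, sq_J]
        exact Submodule.add_mem _ (Submodule.mem_sup_right (Submodule.mem_map_of_mem hu))
          (Submodule.neg_mem _ (Submodule.mem_sup_left hw))
      have hmem : ∀ u ∈ LieModule.lowerCentralSeries ℝ 𝔤 𝔤 n, ∀ x : 𝔤, ⁅x, u⁆ ∈ L := by
        intro u hu x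
        rw [hL, LieModule.lowerCentralSeries_succ]
        exact LieSubmodule.lie_mem_lie (LieSubmodule.mem_top x) hu
      have hmem' : ∀ u ∈ LieModule.lowerCentralSeries ℝ 𝔤 𝔤 n, ∀ x : 𝔤, ⁅u, x⁆ ∈ L := by
        intro u hu x
        rw [← lie_skew]
        exact Submodule.neg_mem _ (hmem u hu x)
      have h1 : derSpan C ≤ L ⊔ L.map J := by
        refine Submodule.span_le.2 ?_
        rintro _ ⟨a, ha, b, hb, rfl⟩
        obtain ⟨u1, hu1, w1, hw1, rfl⟩ := Submodule.mem_sup.1 (ih ha)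
        obtain ⟨v1, hv1, rfl⟩ := hw1
        obtain ⟨u2, hu2, w2, hw2, rfl⟩ := Submodule.mem_sup.1 (ih hb)
        obtain ⟨v2, hv2, rfl⟩ := hw2
        have e1 : ⁅J v1, J v2⁆ = ⁅v1, v2⁆ + J (⁅J v1, v2⁆ + ⁅v1, J v2⁆) := by
          have := integrable v1 v2
          rw [map_add]
          have e2 : ⁅v1, v2⁆ + (J ⁅J v1, v2⁆ + J ⁅v1, J v2⁆) - ⁅J v1, J v2⁆ = 0 := by
            rw [← this]; abel
          exact (sub_eq_zero.1 e2).symm
        have e3 : ⁅u1 + J v1, u2 + J v2⁆ = (⁅u1, u2⁆ + ⁅u1, J v2⁆ + ⁅J v1, u2⁆ + ⁅v1, v2⁆) +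
            J (⁅J v1, v2⁆ + ⁅v1, J v2⁆) := by
          rw [add_lie, lie_add, lie_add, e1]; abel
        rw [e3]
        refine Submodule.add_mem _ (Submodule.mem_sup_left ?_)
          (Submodule.mem_sup_right (Submodule.mem_map_of_mem ?_))
        · exact Submodule.add_mem _ (Submodule.add_mem _ (Submodule.add_mem _ (hmem' _ hu1 _)
            (hmem' _ hu1 _)) (hmem _ hu2 _)) (hmem' _ hv1 _)
        · exact Submodule.add_mem _ (hmem _ hv2 _) (hmem' _ hv1 _)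
      refine hC.trans (sup_le h1 ?_)
      rw [Submodule.map_le_iff_le_comap]
      intro x hx
      exact hJinv x (h1 hx)
  obtain ⟨n, hn⟩ := (LieModule.isNilpotent_iff ℝ 𝔤 𝔤).1 (inferInstance)
  have := key n
  rw [hn] at this
  rw [eq_bot_iff]
  refine this.trans ?_
  rw [LieSubmodule.bot_toSubmodule, Submodule.map_bot, sup_bot_eq]

/-- A nilpotent Lie algebra with a flat inner product is abelian. -/
theorem abelian_of_flat {𝔤 : Type*} [LieRing 𝔤] [LieAlgebra ℝ 𝔤] [LieRing.IsNilpotent 𝔤]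
    (g : 𝔤 →ₗ[ℝ] 𝔤 →ₗ[ℝ] ℝ) (symm : ∀ x y, g x y = g y x) (pos : ∀ x, x ≠ 0 → 0 < g x x)
    (D : 𝔤 →ₗ[ℝ] 𝔤 →ₗ[ℝ] 𝔤) (hD : IsLeviCivita g D) (hflat : ∀ x y z, curv D x y z = 0) :
    IsLieAbelian 𝔤 := by
  have hz0 : ∀ x, g x x = 0 → x = 0 := by
    intro x hx
    by_contra hne
    exact absurd hx (pos x hne).ne'
  have htf : ∀ x y, D x y - D y x = ⁅x, y⁆ := fun x y => sub_eq_zero.1 (hD.torsion_free x y)
  refine (LieModule.disjoint_lowerCentralSeries_maxTrivSubmodule_iff ℝ 𝔤 𝔤).1 ?_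
  rw [disjoint_iff, eq_bot_iff]
  intro z hz
  obtain ⟨hz1, hz2⟩ := hz
  have hcen : ∀ x : 𝔤, ⁅x, z⁆ = 0 := by
    intro x
    exact (LieModule.mem_maxTrivSubmodule ℝ 𝔤 𝔤 z).1 hz2 x
  have hDz : ∀ x, D x z = D z x := by
    intro x
    have := htf x z
    rw [hcen] at this
    exact sub_eq_zero.1 this
  have hzz : D z z = 0 := by
    apply hz0
    have h1 := hD.metric z z (D z z)
    have h2 := hD.metric (D z z) z z
    rw [← hDz (D z z)] at h1
    have h3 := symm z (D (D z z) z)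
    linarith
  have hxz : ∀ x, D x z = 0 := by
    intro x
    apply hz0
    have h1 := hflat x z z
    unfold curv at h1
    rw [hzz, hcen, map_zero, map_zero, LinearMap.zero_apply, sub_zero, zero_sub,
      neg_eq_zero] at h1
    have h2 := hD.metric z (D x z) x
    rw [h1, map_zero, LinearMap.zero_apply, zero_add, ← hDz] at h2
    exact h2
  have horth : ∀ x y : 𝔤, g z ⁅x, y⁆ = 0 := by
    intro x y
    have h1 := hD.metric x z y
    have h2 := hD.metric y z x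
    rw [hxz, map_zero, LinearMap.zero_apply, zero_add] at h1 h2
    rw [← htf, map_sub, h1, h2, sub_zero]
  have hle : (LieModule.lowerCentralSeries ℝ 𝔤 𝔤 1).toSubmodule ≤ LinearMap.ker (g z) := by
    rw [LieModule.lowerCentralSeries_succ, LieSubmodule.lieIdeal_oper_eq_linear_span',
      Submodule.span_le]
    rintro _ ⟨x, _, y, _, rfl⟩
    exact horth x y
  exact hz0 z (LinearMap.mem_ker.1 (hle hz1))

/-- Final statement. -/
theorem lc_final {𝔤 : Type*} [LieRing 𝔤] [LieAlgebra ℝ 𝔤] [FiniteDimensional ℝ 𝔤] [Nontrivial 𝔤]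
    (g : 𝔤 →ₗ[ℝ] 𝔤 →ₗ[ℝ] ℝ) (J : 𝔤 →ₗ[ℝ] 𝔤) (hgJ : IsHermitianStructure g J)
    (D : 𝔤 →ₗ[ℝ] 𝔤 →ₗ[ℝ] 𝔤) (hD : IsLeviCivita g D)
    (c : ℝ) (hc : ∀ x, x ≠ 0 → holSec g J D x = c) :
    (LieRing.IsNilpotent 𝔤 → c = 0 ∧ IsLieAbelian 𝔤 ∧ ∀ x y z, curv D x y z = 0) ∧
    ((∀ k, jChain J (k + 1) = jChain J k → jChain J k ≠ ⊥ →
        siegelPart J (jChain J k) ≠ jChain J k) →
      (0 ≤ c ∨ ∃ y : 𝔤, y ≠ 0 ∧ ∀ z : 𝔤, ⁅y, z⁆ = 0) →
      c = 0 ∧ ∀ x y z, curv D x y z = 0) := by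
  refine ⟨fun hnil => ?_, fun hNS hsign => lc_main_lie g J hgJ hNS D hD c hsign hc⟩
  have hNS : ∀ k, jChain J (k + 1) = jChain J k → jChain J k ≠ ⊥ →
      siegelPart J (jChain J k) ≠ jChain J k := by
    intro k hk hne
    exact absurd (bot_of_nilpotent J hgJ.sq_J hgJ.integrable _ hk.ge) hne
  obtain ⟨h1, h2⟩ := lc_main_lie g J hgJ hNS D hD c (Or.inr (by
    obtain ⟨y, hy⟩ := @exists_ne _ (LieModule.nontrivial_max_triv_of_isNilpotent ℝ 𝔤 𝔤) 0
    refine ⟨y.1, fun h => hy (Subtype.ext h), fun z => ?_⟩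
    rw [← lie_skew, (LieModule.mem_maxTrivSubmodule ℝ 𝔤 𝔤 y.1).1 y.2 z, neg_zero])) hc
  exact ⟨h1, abelian_of_flat g hgJ.symm hgJ.pos D hD h2, h2⟩

end Pool.Agent.Lib.MP_a150d7_gt
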