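import Mathlib

open Module

namespace Pool.Agent.Lib.MP_a150d7_gt

section proj
variable {E : Type*} [NormedAddCommGroup E] [InnerProductSpace ℝ E] [FiniteDimensional ℝ E]

open scoped InnerProductSpace

/-- orthogonal projection as a linear endomorphism -/
noncomputable def pr (W : Submodule ℝ E) : E →ₗ[ℝ] E := (W.starProjection : E →L[ℝ] E)

theorem pr_mem (W : Submodule ℝ E) (x : E) : pr W x ∈ W := W.starProjection_apply_mem x

theorem pr_eq_self {W : Submodule ℝ E} {x : E} (hx : x ∈ W) : pr W x = x :=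
  Submodule.starProjection_eq_self_iff.2 hx

theorem sub_pr_mem (W : Submodule ℝ E) (x : E) : x - pr W x ∈ Wᗮ :=
  W.sub_starProjection_mem_orthogonal x

theorem inner_pr_left (W : Submodule ℝ E) (x y : E) : ⟪pr W x, y⟫_ℝ = ⟪x, pr W y⟫_ℝ :=
  Submodule.inner_starProjection_left_eq_right W x y

theorem pr_eq_zero {W : Submodule ℝ E} {x : E} (hx : x ∈ Wᗮ) : pr W x = 0 :=
  (Submodule.starProjection_apply_eq_zero_iff W).2 hx

theorem inner_pr_of_mem {W : Submodule ℝ E} (x : E) {y : E} (hy : y ∈ W) :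
    ⟪pr W x, y⟫_ℝ = ⟪x, y⟫_ℝ := by
  rw [inner_pr_left, pr_eq_self hy]

theorem norm_sq_pr_add (W : Submodule ℝ E) (x : E) :
    ‖x‖ ^ 2 = ‖pr W x‖ ^ 2 + ‖x - pr W x‖ ^ 2 := by
  have h1 : ⟪pr W x, x - pr W x⟫_ℝ = 0 := Submodule.inner_right_of_mem_orthogonal (pr_mem W x)
    (sub_pr_mem W x)
  have h2 : x = pr W x + (x - pr W x) := by abel
  conv_lhs => rw [h2]
  rw [norm_add_sq_real, h1]; ring

theorem parseval (W : Submodule ℝ E) {ι : Type*} [Fintype ι] (b : OrthonormalBasis ι ℝ W)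
    (x : E) : ∑ i, ⟪x, (b i : E)⟫_ℝ ^ 2 = ‖pr W x‖ ^ 2 := by
  let y : W := ⟨pr W x, pr_mem W x⟩
  have h1 : ‖y‖ ^ 2 = ∑ i, ⟪y, b i⟫_ℝ ^ 2 := by
    have h2 := b.sum_sq_norm_inner_right y
    simp only [Real.norm_eq_abs, sq_abs] at h2
    rw [← h2]
    exact Finset.sum_congr rfl fun i _ => by rw [real_inner_comm]
  have h2 : ‖y‖ = ‖pr W x‖ := rfl
  rw [← h2, h1]
  refine Finset.sum_congr rfl fun i _ => ?_
  have : ⟪y, b i⟫_ℝ = ⟪pr W x, (b i : E)⟫_ℝ := rfl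
  rw [this, inner_pr_of_mem x (b i).2]

theorem sum_inner_eq_trace (W : Submodule ℝ E) {ι : Type*} [Fintype ι]
    (b : OrthonormalBasis ι ℝ W) (T : E →ₗ[ℝ] E) :
    ∑ i, ⟪T (b i : E), (b i : E)⟫_ℝ = LinearMap.trace ℝ E (pr W ∘ₗ T) := by
  let P : E →ₗ[ℝ] W := (pr W).codRestrict W (pr_mem W)
  have h1 : pr W ∘ₗ T = W.subtype ∘ₗ (P ∘ₗ T) := by ext x; rfl
  rw [h1, LinearMap.trace_comp_comm', LinearMap.trace_eq_sum_inner _ b]
  refine Finset.sum_congr rfl fun i _ => ?_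
  have h2 : ⟪b i, ((P ∘ₗ T) ∘ₗ W.subtype) (b i)⟫_ℝ = ⟪(b i : E), pr W (T (b i : E))⟫_ℝ := rfl
  rw [h2, real_inner_comm _ (b i : E), inner_pr_of_mem _ (b i).2]

/-- Hilbert–Schmidt comparison. -/
theorem hs_compare (W : Submodule ℝ E) {ι : Type*} [Fintype ι] (b : OrthonormalBasis ι ℝ W)
    (T : E →ₗ[ℝ] E) (hT : ∀ w ∈ W, T w ∈ W) (v : ι → E)
    (hv : ∀ i j, ⟪v i, (b j : E)⟫_ℝ = ⟪(b i : E), T (b j)⟫_ℝ) :
    ∑ i, ‖v i‖ ^ 2 = ∑ i, ‖T (b i)‖ ^ 2 + ∑ i, ‖v i - pr W (v i)‖ ^ 2 := by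
  have h1 : ∑ i, ‖pr W (v i)‖ ^ 2 = ∑ j, ‖T (b j)‖ ^ 2 := by
    calc ∑ i, ‖pr W (v i)‖ ^ 2 = ∑ i, ∑ j, ⟪v i, (b j : E)⟫_ℝ ^ 2 :=
          Finset.sum_congr rfl fun i _ => (parseval W b (v i)).symm
      _ = ∑ j, ∑ i, ⟪v i, (b j : E)⟫_ℝ ^ 2 := Finset.sum_comm
      _ = ∑ j, ∑ i, ⟪T (b j), (b i : E)⟫_ℝ ^ 2 :=
          Finset.sum_congr rfl fun j _ => Finset.sum_congr rfl fun i _ => by
            rw [hv, real_inner_comm]
      _ = ∑ j, ‖pr W (T (b j))‖ ^ 2 := Finset.sum_congr rfl fun j _ => parseval W b _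
      _ = ∑ j, ‖T (b j)‖ ^ 2 :=
          Finset.sum_congr rfl fun j _ => by rw [pr_eq_self (hT _ (b j).2)]
  rw [← h1, ← Finset.sum_add_distrib]
  exact Finset.sum_congr rfl fun i _ => norm_sq_pr_add W (v i)

end proj

section nil
variable {V : Type*} [AddCommGroup V] [Module ℝ V] [FiniteDimensional ℝ V]

open Polynomial in
/-- A non-nilpotent endomorphism has a nonzero idempotent of the form `p(L) L`. -/
theorem exists_idempotent (L : V →ₗ[ℝ] V) (hL : ¬ IsNilpotent L) :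
    ∃ p : ℝ[X], (aeval L p * L) * (aeval L p * L) = aeval L p * L ∧ aeval L p * L ≠ 0 := by
  have hμ : minpoly ℝ L ≠ 0 := minpoly.ne_zero (Algebra.IsIntegral.isIntegral L)
  obtain ⟨ν, hν1, hν2⟩ := Polynomial.exists_eq_pow_rootMultiplicity_mul_and_not_dvd
    (minpoly ℝ L) hμ 0
  set k := (minpoly ℝ L).rootMultiplicity 0
  rw [map_zero, sub_zero] at hν1 hν2
  have hcop : IsCoprime (X : ℝ[X]) ν := by
    rw [Prime.coprime_iff_not_dvd Polynomial.prime_X]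
    exact hν2
  have hcop2 : IsCoprime ((X : ℝ[X]) ^ (k + 1)) ν := hcop.pow_left
  obtain ⟨a, b, hab⟩ := hcop2
  have h0 : aeval L (X ^ k * ν) = 0 := by rw [← hν1]; exact minpoly.aeval ℝ L
  refine ⟨a * X ^ k, ?_, ?_⟩
  · have h1 : aeval L (a * X ^ k) * L = aeval L (a * X ^ (k + 1)) := by
      rw [pow_succ, ← mul_assoc, map_mul _ (a * X ^ k) X, aeval_X]
    rw [h1, ← map_mul]
    have h2 : a * X ^ (k + 1) * (a * X ^ (k + 1)) =
        a * X ^ (k + 1) - a * b * X * (X ^ k * ν) := by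
      have : b * ν = 1 - a * X ^ (k + 1) := by rw [← hab]; ring
      linear_combination (a * X ^ (k + 1)) * this
    rw [h2, map_sub, map_mul _ _ (X ^ k * ν), h0, mul_zero, sub_zero]
  · intro h1
    have h1' : aeval L (a * X ^ (k + 1)) = 0 := by
      rw [← h1, pow_succ, ← mul_assoc, map_mul _ (a * X ^ k) X, aeval_X]
    apply hL
    refine ⟨k, ?_⟩
    have h2 : (X : ℝ[X]) ^ k = X ^ k * (a * X ^ (k + 1)) + b * (X ^ k * ν) := by
      linear_combination (- X ^ k) * hab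
    have h3 : aeval L ((X : ℝ[X]) ^ k) = 0 := by
      rw [h2, map_add, map_mul _ _ (a * X ^ (k + 1)), h1', map_mul _ b, h0, mul_zero, mul_zero,
        add_zero]
    rwa [map_pow, aeval_X] at h3

theorem trace_idempotent_pos (e : V →ₗ[ℝ] V) (he : e * e = e) (h0 : e ≠ 0) :
    0 < LinearMap.trace ℝ V e := by
  have h1 : LinearMap.IsProj (LinearMap.range e) e := by
    refine ⟨fun x => ⟨x, rfl⟩, ?_⟩
    rintro _ ⟨x, rfl⟩
    have := LinearMap.congr_fun he x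
    exact this
  rw [h1.trace]
  have : 0 < finrank ℝ (LinearMap.range e) := by
    rw [Module.finrank_pos_iff]
    rw [Submodule.nontrivial_iff_ne_bot]
    intro h
    exact h0 (LinearMap.range_eq_bot.1 h)
  exact_mod_cast this

/-- A commuting family of nilpotent operators preserving a nonzero subspace kills some nonzero
vector of it. -/
theorem exists_killed {ι : Type*} (L : ι → V →ₗ[ℝ] V) (hnil : ∀ i, IsNilpotent (L i))
    (hcomm : ∀ i j x, L i (L j x) = L j (L i x)) (W0 : Submodule ℝ V) (hW0 : W0 ≠ ⊥)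
    (hinv : ∀ i, ∀ x ∈ W0, L i x ∈ W0) : ∃ z ∈ W0, z ≠ 0 ∧ ∀ i, L i z = 0 := by
  classical
  let S : Set (Submodule ℝ V) := {W | W ≤ W0 ∧ W ≠ ⊥ ∧ ∀ i, ∀ x ∈ W, L i x ∈ W}
  have hS : S.Nonempty := ⟨W0, le_rfl, hW0, hinv⟩
  obtain ⟨W, hW, hmin⟩ := WellFounded.has_min (wellFounded_lt (α := Submodule ℝ V)) S hS
  have key : ∀ i, W.map (L i) = ⊥ := by
    intro i
    by_contra hne
    have hle : W.map (L i) ≤ W := by
      rintro _ ⟨x, hx, rfl⟩; exact hW.2.2 i x hx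
    have hmem : W.map (L i) ∈ S := by
      refine ⟨hle.trans hW.1, hne, ?_⟩
      rintro j _ ⟨x, hx, rfl⟩
      exact ⟨L j x, hW.2.2 j x hx, hcomm i j x⟩
    have heq : W.map (L i) = W := by
      by_contra hne'
      exact hmin _ hmem (lt_of_le_of_ne hle hne')
    obtain ⟨n, hn⟩ := hnil i
    have hpow : ∀ k : ℕ, W.map (L i ^ k) = W := by
      intro k
      induction k with
      | zero => rw [pow_zero]; exact Submodule.map_id W
      | succ k ih =>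
        rw [pow_succ', Module.End.mul_eq_comp, Submodule.map_comp, ih, heq]
    have := hpow n
    rw [hn] at this
    rw [Submodule.map_zero] at this
    exact hW.2.1 this.symm
  obtain ⟨z, hz, hz0⟩ := Submodule.exists_mem_ne_zero_of_ne_bot hW.2.1
  refine ⟨z, hW.1 hz, hz0, fun i => ?_⟩
  have : L i z ∈ W.map (L i) := ⟨z, hz, rfl⟩
  rw [key i] at this
  exact (Submodule.mem_bot ℝ).1 this

end nil

end Pool.Agent.Lib.MP_a150d7_gt
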