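import Pool.Agent.Lib.MP_a150d7_gt.STrace

/-!
In a unimodular solvable Lie algebra with an integrable complex structure `J` some nonzero `y`
commutes with `J y`.
-/

open Module

namespace Pool.Agent.Lib.MP_a150d7_gt

section
variable {𝔤 : Type*} [LieRing 𝔤] [LieAlgebra ℝ 𝔤]

/-- the derived algebra as a subspace -/
def der (𝔤 : Type*) [LieRing 𝔤] [LieAlgebra ℝ 𝔤] : Submodule ℝ 𝔤 :=
  Submodule.span ℝ {v | ∃ a b : 𝔤, v = ⁅a, b⁆}

theorem lie_mem_der (a b : 𝔤) : ⁅a, b⁆ ∈ der 𝔤 := Submodule.subset_span ⟨a, b, rfl⟩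

theorem der_ne_top [Nontrivial 𝔤] [LieAlgebra.IsSolvable 𝔤] : der 𝔤 ≠ ⊤ := by
  intro h
  have h1 := LieAlgebra.derivedSeries_lt_top_of_solvable (R := ℝ) (L := 𝔤)
  apply h1.ne
  rw [eq_top_iff]
  have h2 : (⊤ : Submodule ℝ 𝔤) ≤ (LieAlgebra.derivedSeries ℝ 𝔤 1).toSubmodule := by
    rw [← h]
    refine Submodule.span_le.2 ?_
    rintro _ ⟨a, b, rfl⟩
    show ⁅a, b⁆ ∈ (LieAlgebra.derivedSeries ℝ 𝔤 1).toSubmodule
    rw [LieSubmodule.mem_toSubmodule, LieAlgebra.derivedSeries_def, LieAlgebra.derivedSeriesOfIdeal_succ,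
      LieAlgebra.derivedSeriesOfIdeal_zero]
    exact LieSubmodule.lie_mem_lie (LieSubmodule.mem_top a) (LieSubmodule.mem_top b)
  intro x _
  exact h2 (Submodule.mem_top : x ∈ (⊤ : Submodule ℝ 𝔤))

end

/-- a nonzero `y` with `[y, J y] = 0` -/
theorem exists_comm_J : ∀ (n : ℕ) {𝔤 : Type*} [LieRing 𝔤] [LieAlgebra ℝ 𝔤] [FiniteDimensional ℝ 𝔤]
    [Nontrivial 𝔤] [LieAlgebra.IsSolvable 𝔤] (J : 𝔤 →ₗ[ℝ] 𝔤) (_ : ∀ x, J (J x) = -x)
    (_ : ∀ x y : 𝔤, ⁅x, y⁆ - ⁅J x, J y⁆ + J ⁅J x, y⁆ + J ⁅x, J y⁆ = 0)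
    (_ : ∀ x : 𝔤, LinearMap.trace ℝ 𝔤 (LieAlgebra.ad ℝ 𝔤 x) = 0) (_ : finrank ℝ 𝔤 ≤ n),
    ∃ y : 𝔤, y ≠ 0 ∧ ⁅y, J y⁆ = 0 := by
  intro n
  induction n with
  | zero =>
    intro 𝔤 _ _ _ _ _ J _ _ _ hn
    have := finrank_pos (R := ℝ) (M := 𝔤)
    omega
  | succ n ih =>
    intro 𝔤 _ _ _ _ _ J hJJ hint huni hn
    -- passing to a subalgebra
    have hsub : ∀ K : LieSubalgebra ℝ 𝔤, (∀ x ∈ K, J x ∈ K) → K.toSubmodule ≠ ⊥ →
        K.toSubmodule ≠ ⊤ → (∀ x ∈ K, ∀ hx : ∀ y ∈ K.toSubmodule, LieAlgebra.ad ℝ 𝔤 x y ∈ K.toSubmodule,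
          LinearMap.trace ℝ K.toSubmodule ((LieAlgebra.ad ℝ 𝔤 x).restrict hx) = 0) →
        ∃ y : 𝔤, y ≠ 0 ∧ ⁅y, J y⁆ = 0 := by
      intro K hJK hbot htop htr
      have hnt : Nontrivial K := (Submodule.nontrivial_iff_ne_bot (p := K.toSubmodule)).2 hbot
      have hsolv : LieAlgebra.IsSolvable K :=
        Function.Injective.lieAlgebra_isSolvable (f := K.incl) Subtype.val_injective
      have hfr : finrank ℝ K < finrank ℝ 𝔤 :=
        Submodule.finrank_lt (s := K.toSubmodule) htop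
      obtain ⟨y, hy0, hy⟩ := ih (𝔤 := K) (J.restrict (p := K.toSubmodule) (q := K.toSubmodule) hJK)
        (by
          intro x
          apply Subtype.ext
          exact hJJ x)
        (by
          intro x y
          apply Subtype.ext
          exact hint x y)
        (by
          intro x
          have h1 := htr x x.2 (fun y hy => K.lie_mem x.2 hy)
          exact h1) (by omega)
      refine ⟨y, fun h => hy0 (Subtype.ext h), ?_⟩
      exact congrArg Subtype.val hy
    by_cases hab : ∀ x y : 𝔤, ⁅x, y⁆ = 0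
    · obtain ⟨y, hy⟩ := exists_ne (0 : 𝔤)
      exact ⟨y, hy, hab _ _⟩
    by_cases hJD : ∀ x ∈ der 𝔤, J x ∈ der 𝔤
    · let K : LieSubalgebra ℝ 𝔤 := { der 𝔤 with lie_mem' := fun _ _ => lie_mem_der _ _ }
      refine hsub K hJD ?_ der_ne_top ?_
      · intro hbot
        apply hab
        intro x y
        have h1 : ⁅x, y⁆ ∈ der 𝔤 := lie_mem_der x y
        have h2 : der 𝔤 = ⊥ := hbot
        rw [h2] at h1
        exact (Submodule.mem_bot ℝ).1 h1
      · intro x _ hx
        rw [← huni x]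
        exact LinearMap.trace_restrict_eq_of_forall_mem (der 𝔤) (LieAlgebra.ad ℝ 𝔤 x)
          (fun y => lie_mem_der x y)
    push Not at hJD
    obtain ⟨x0, hx0, hJx0⟩ := hJD
    obtain ⟨ξ, hξ, hξD⟩ := Submodule.exists_dual_map_eq_bot_of_notMem hJx0 inferInstance
    have hξ0 : ∀ v ∈ der 𝔤, ξ v = 0 := by
      intro v hv
      have h1 : ξ v ∈ (der 𝔤).map ξ := Submodule.mem_map_of_mem hv
      rw [hξD] at h1
      exact (Submodule.mem_bot ℝ).1 h1
    let w : 𝔤 →ₗ[ℝ] 𝔤 →ₗ[ℝ] ℝ := LinearMap.mk₂ ℝ (fun x y => ξ (J ⁅x, y⁆))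
      (fun x x' y => by simp only [add_lie, map_add])
      (fun c x y => by simp only [smul_lie, map_smul])
      (fun x y y' => by simp only [lie_add, map_add])
      (fun c x y => by simp only [lie_smul, map_smul])
    have hw : ∀ x y, w x y = ξ (J ⁅x, y⁆) := fun x y => rfl
    have hsk : ∀ x y, w x y = -w y x := by
      intro x y
      rw [hw, hw, ← lie_skew, map_neg, map_neg]
    have hwJ : ∀ x y, w (J x) (J y) = w x y := by
      intro x y
      have h1 := congrArg J (hint x y)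
      simp only [map_add, map_sub, hJJ, map_zero] at h1
      have h2 := congrArg ξ h1
      simp only [map_add, map_sub, map_neg, map_zero, hξ0 _ (lie_mem_der (J x) y),
        hξ0 _ (lie_mem_der x (J y))] at h2
      rw [hw, hw]; linarith
    have hinv : ∀ v x y, w ⁅v, x⁆ y + w x ⁅v, y⁆ = w v ⁅x, y⁆ := by
      intro v x y
      rw [hw, hw, hw, ← map_add, ← map_add, leibniz_lie v x y]
    let K : LieSubalgebra ℝ 𝔤 :=
      { carrier := {x | ∀ y, w x y = 0}
        add_mem' := by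
          intro a b ha hb y
          rw [map_add, LinearMap.add_apply, ha y, hb y, add_zero]
        zero_mem' := by
          intro y
          rw [map_zero, LinearMap.zero_apply]
        smul_mem' := by
          intro c a ha y
          rw [map_smul, LinearMap.smul_apply, ha y, smul_zero]
        lie_mem' := by
          intro a b ha hb y
          have h1 := hinv a b y
          rw [ha ⁅b, y⁆, hb ⁅a, y⁆, add_zero] at h1
          exact h1 }
    have hK : ∀ x, x ∈ K.toSubmodule ↔ ∀ y, w x y = 0 := fun x => Iff.rfl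
    refine hsub K ?_ ?_ ?_ ?_
    · intro x hx y
      have h1 := hwJ x (J y)
      rw [hJJ, map_neg] at h1
      rw [← neg_eq_zero, h1]
      exact hx (J y)
    · intro hbot
      have hinj : Function.Injective (w : 𝔤 →ₗ[ℝ] Module.Dual ℝ 𝔤) := by
        rw [← LinearMap.ker_eq_bot, LinearMap.ker_eq_bot']
        intro x hx
        have h1 : x ∈ K.toSubmodule := fun y => LinearMap.congr_fun hx y
        rw [hbot] at h1
        exact (Submodule.mem_bot ℝ).1 h1
      let e : 𝔤 ≃ₗ[ℝ] Module.Dual ℝ 𝔤 := LinearEquiv.ofInjectiveOfFinrankEq w hinj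
        (Subspace.dual_finrank_eq).symm
      obtain ⟨v, hv⟩ := e.surjective (ξ ∘ₗ J)
      have hv' : ∀ y, w v y = ξ (J y) := fun y => LinearMap.congr_fun hv y
      have h1 := trace_of_form_nondeg w (fun x hx => by
        have h1 : x ∈ K.toSubmodule := hx
        rw [hbot] at h1
        exact (Submodule.mem_bot ℝ).1 h1) (LieAlgebra.ad ℝ 𝔤 v) 1 (by
          intro x y
          rw [LieAlgebra.ad_apply, LieAlgebra.ad_apply, hinv, hv', one_mul, hw])
      rw [huni v] at h1
      have h2 := finrank_pos (R := ℝ) (M := 𝔤)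
      have h3 : (0 : ℝ) < finrank ℝ 𝔤 := by exact_mod_cast h2
      linarith
    · intro htop
      apply hξ
      have h1 : ∀ v ∈ der 𝔤, ξ (J v) = 0 := by
        intro v hv
        induction hv using Submodule.span_induction with
        | mem v hv =>
          obtain ⟨a, b, rfl⟩ := hv
          have h2 : a ∈ K.toSubmodule := by rw [htop]; trivial
          exact h2 b
        | zero => rw [map_zero, map_zero]
        | add u v _ _ hu hv => rw [map_add, map_add, hu, hv, add_zero]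
        | smul r u _ hu => rw [map_smul, map_smul, hu, smul_zero]
      exact h1 x0 hx0
    · intro x hx hx'
      have h1 := trace_of_form w hsk K.toSubmodule hK (LieAlgebra.ad ℝ 𝔤 x) hx' 0 (by
        intro a b
        rw [LieAlgebra.ad_apply, LieAlgebra.ad_apply, hinv, hx, zero_mul])
      rw [huni x] at h1
      linarith

end Pool.Agent.Lib.MP_a150d7_gt
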