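import Pool.Agent.Lib.MP_a150d7_gt.SNilp
import Pool.Agent.Lib.MP_a150d7_gt.SComm

/-!
Solvability in terms of a bilinear bracket.
-/

open Module

namespace Pool.Agent.Lib.MP_a150d7_gt

section
variable {E : Type*} [AddCommGroup E] [Module ℝ E]

/-- span of brackets -/
def bs (br : E →ₗ[ℝ] E →ₗ[ℝ] E) (U V : Submodule ℝ E) : Submodule ℝ E :=
  Submodule.span ℝ {v | ∃ a ∈ U, ∃ b ∈ V, v = br a b}

theorem bs_mem {br : E →ₗ[ℝ] E →ₗ[ℝ] E} {U V : Submodule ℝ E} {a b : E} (ha : a ∈ U) (hb : b ∈ V) :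
    br a b ∈ bs br U V := Submodule.subset_span ⟨a, ha, b, hb, rfl⟩

theorem bs_le {br : E →ₗ[ℝ] E →ₗ[ℝ] E} {U V W : Submodule ℝ E}
    (h : ∀ a ∈ U, ∀ b ∈ V, br a b ∈ W) : bs br U V ≤ W := by
  refine Submodule.span_le.2 ?_
  rintro _ ⟨a, ha, b, hb, rfl⟩
  exact h a ha b hb

theorem bs_mono {br : E →ₗ[ℝ] E →ₗ[ℝ] E} {U V U' V' : Submodule ℝ E} (hU : U ≤ U') (hV : V ≤ V') :
    bs br U V ≤ bs br U' V' := bs_le fun _ ha _ hb => bs_mem (hU ha) (hV hb)

/-- the derived series -/
def Dser (br : E →ₗ[ℝ] E →ₗ[ℝ] E) : ℕ → Submodule ℝ E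
  | 0 => ⊤
  | k + 1 => bs br (Dser br k) (Dser br k)

/-- solvability -/
def Solv (br : E →ₗ[ℝ] E →ₗ[ℝ] E) : Prop := ∃ k, Dser br k = ⊥

/-- the iterated action of the derived algebra on itself -/
def Nser (br : E →ₗ[ℝ] E →ₗ[ℝ] E) : ℕ → Submodule ℝ E
  | 0 => bs br ⊤ ⊤
  | k + 1 => bs br (bs br ⊤ ⊤) (Nser br k)

/-- the Lie ring structure defined by a bracket -/
@[reducible] def mkLR (br : E →ₗ[ℝ] E →ₗ[ℝ] E) (hself : ∀ x, br x x = 0)
    (hjac : ∀ x y z, br x (br y z) = br (br x y) z + br y (br x z)) : LieRing E :=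
  { (inferInstance : AddCommGroup E) with
    bracket := fun x y => br x y
    add_lie := fun x y z => by
      show br (x + y) z = br x z + br y z
      rw [map_add]; rfl
    lie_add := fun x y z => by
      show br x (y + z) = br x y + br x z
      rw [map_add]
    lie_self := hself
    leibniz_lie := hjac }

/-- the Lie algebra structure defined by a bracket -/
@[reducible] def mkLA (br : E →ₗ[ℝ] E →ₗ[ℝ] E) (hself : ∀ x, br x x = 0)
    (hjac : ∀ x y z, br x (br y z) = br (br x y) z + br y (br x z)) :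
    letI := mkLR br hself hjac; LieAlgebra ℝ E :=
  letI := mkLR br hself hjac
  { (inferInstance : Module ℝ E) with
    lie_smul := fun t x y => by
      show br x (t • y) = t • br x y
      rw [map_smul] }

variable {br : E →ₗ[ℝ] E →ₗ[ℝ] E} (hself : ∀ x, br x x = 0)
  (hjac : ∀ x y z, br x (br y z) = br (br x y) z + br y (br x z))

include hself hjac

theorem mk_solv (hs : Solv br) :
    letI := mkLR br hself hjac
    letI := mkLA br hself hjac
    LieAlgebra.IsSolvable E := by
  let := mkLR br hself hjac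
  let := mkLA br hself hjac
  have h1 : ∀ k, (LieAlgebra.derivedSeries ℝ E k).toSubmodule ≤ Dser br k := by
    intro k
    induction k with
    | zero => exact le_top
    | succ k ih =>
      rw [LieAlgebra.derivedSeries_def, LieAlgebra.derivedSeriesOfIdeal_succ,
        LieSubmodule.lieIdeal_oper_eq_linear_span']
      refine Submodule.span_le.2 ?_
      rintro _ ⟨a, ha, b, hb, rfl⟩
      exact bs_mem (ih ha) (ih hb)
  obtain ⟨k, hk⟩ := hs
  refine LieAlgebra.IsSolvable.mk (R := ℝ) (k := k) ?_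
  rw [← LieSubmodule.toSubmodule_eq_bot, eq_bot_iff, ← hk]
  exact h1 k

theorem exists_Nser [FiniteDimensional ℝ E] (hs : Solv br) : ∃ k, Nser br k = ⊥ := by
  let := mkLR br hself hjac
  let := mkLA br hself hjac
  have := mk_solv hself hjac hs
  have h1 := nilp_derived E
  obtain ⟨k, hk⟩ := (LieModule.isNilpotent_iff ℝ (LieAlgebra.derivedSeries ℝ E 1) E).1 h1
  have h2 : ∀ k, Nser br k ≤ (LieModule.lowerCentralSeries ℝ (LieAlgebra.derivedSeries ℝ E 1) E
      k).toSubmodule := by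
    intro k
    induction k with
    | zero => exact le_top
    | succ k ih =>
      rw [LieModule.lowerCentralSeries_succ, LieSubmodule.lieIdeal_oper_eq_linear_span']
      refine bs_le ?_
      intro a ha b hb
      refine Submodule.subset_span ?_
      have ha' : a ∈ LieAlgebra.derivedSeries ℝ E 1 := by
        have h3 : bs br ⊤ ⊤ ≤ (LieAlgebra.derivedSeries ℝ E 1).toSubmodule := by
          refine bs_le ?_
          intro a _ b _
          rw [LieAlgebra.derivedSeries_def, LieAlgebra.derivedSeriesOfIdeal_succ,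
            LieAlgebra.derivedSeriesOfIdeal_zero]
          exact LieSubmodule.lie_mem_lie (LieSubmodule.mem_top a) (LieSubmodule.mem_top b)
        exact h3 ha
      exact ⟨⟨a, ha'⟩, LieSubmodule.mem_top _, b, ih hb, rfl⟩
  refine ⟨k, ?_⟩
  rw [eq_bot_iff]
  refine (h2 k).trans ?_
  rw [hk]
  exact le_rfl

/-- a nonzero `y` with `[y, J y] = 0` -/
theorem exists_comm_elem [FiniteDimensional ℝ E] [Nontrivial E] (hs : Solv br) (J : E →ₗ[ℝ] E)
    (hJJ : ∀ x, J (J x) = -x)
    (hint : ∀ x y, br x y - br (J x) (J y) + J (br (J x) y) + J (br x (J y)) = 0)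
    (huni : ∀ x, LinearMap.trace ℝ E (br x) = 0) : ∃ y : E, y ≠ 0 ∧ br y (J y) = 0 := by
  let := mkLR br hself hjac
  let := mkLA br hself hjac
  have := mk_solv hself hjac hs
  exact exists_comm_J (finrank ℝ E) J hJJ hint huni le_rfl

omit hself hjac in
theorem solv_bs_ne_top [Nontrivial E] (hs : Solv br) : bs br ⊤ ⊤ ≠ ⊤ := by
  intro h
  obtain ⟨k, hk⟩ := hs
  have h1 : ∀ k, Dser br k = ⊤ := by
    intro k
    induction k with
    | zero => rfl
    | succ k ih =>
      show bs br (Dser br k) (Dser br k) = ⊤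
      rw [ih, h]
  rw [h1] at hk
  exact top_ne_bot hk

end

end Pool.Agent.Lib.MP_a150d7_gt
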