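import Pool.Agent.Lib.MP_a150d7_gt.Mg.G002
import Pool.Agent.Lib.MP_a150d7_gt.SElem

/-!
The `J`-derived chain and the first half of the descent: vectors of `P` orthogonal to `P' + J P'`
are killed by `A x`, `x ∈ P`.
-/

set_option linter.unusedSectionVars false

open Module
open scoped InnerProductSpace

namespace Pool.Agent.Lib.MP_a150d7_gt

section tr
variable {M : Type*} [AddCommGroup M] [Module ℝ M] [FiniteDimensional ℝ M]

theorem trace_phi (D D' J : M →ₗ[ℝ] M) (hJJ : ∀ x, J (J x) = -x)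
    (hD : ∀ x, D' (J x) - J (D' x) = D x + J (D (J x))) (hc : ∀ x, D (D' x) = D' (D x)) :
    LinearMap.trace ℝ M ((D + J ∘ₗ D ∘ₗ J) ∘ₗ (D + J ∘ₗ D ∘ₗ J)) = 0 := by
  have e1 : (D + J ∘ₗ D ∘ₗ J) ∘ₗ (D + J ∘ₗ D ∘ₗ J) =
      (D ∘ₗ D') ∘ₗ J - D ∘ₗ (J ∘ₗ D') + (J ∘ₗ D ∘ₗ J ∘ₗ D') ∘ₗ J + J ∘ₗ (D ∘ₗ D') := by
    apply LinearMap.ext
    intro x
    simp only [LinearMap.comp_apply, LinearMap.add_apply, LinearMap.sub_apply]
    rw [← hD x]
    simp only [map_sub, hJJ, map_neg]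
    abel
  have e2 : LinearMap.trace ℝ M ((D ∘ₗ D') ∘ₗ J) = LinearMap.trace ℝ M (J ∘ₗ (D ∘ₗ D')) :=
    LinearMap.trace_comp_comm' _ _
  have e3 : LinearMap.trace ℝ M ((J ∘ₗ D ∘ₗ J ∘ₗ D') ∘ₗ J) =
      -LinearMap.trace ℝ M (D ∘ₗ (J ∘ₗ D')) := by
    rw [LinearMap.trace_comp_comm', ← map_neg]
    congr 1
    apply LinearMap.ext
    intro x
    simp only [LinearMap.comp_apply, LinearMap.neg_apply, hJJ]
  have e4 : LinearMap.trace ℝ M (D ∘ₗ (J ∘ₗ D')) = LinearMap.trace ℝ M (J ∘ₗ (D ∘ₗ D')) := by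
    rw [LinearMap.trace_comp_comm']
    congr 1
    apply LinearMap.ext
    intro x
    simp only [LinearMap.comp_apply, hc]
  rw [e1, map_add, map_add, map_sub, e2, e3, e4]
  ring

end tr

variable {E : Type*} [NormedAddCommGroup E] [InnerProductSpace ℝ E] [FiniteDimensional ℝ E]

/-- `P' + J P'` -/
def jd (br : E →ₗ[ℝ] E →ₗ[ℝ] E) (J : E →ₗ[ℝ] E) (P : Submodule ℝ E) : Submodule ℝ E :=
  bs br P P ⊔ (bs br P P).map J

/-- the `J`-derived chain -/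
def Jch (br : E →ₗ[ℝ] E →ₗ[ℝ] E) (J : E →ₗ[ℝ] E) : ℕ → Submodule ℝ E
  | 0 => ⊤
  | k + 1 => jd br J (Jch br J k)

/-- a `J`-invariant subalgebra -/
structure JSub (br : E →ₗ[ℝ] E →ₗ[ℝ] E) (J : E →ₗ[ℝ] E) (P : Submodule ℝ E) : Prop where
  cbr : ∀ x ∈ P, ∀ y ∈ P, br x y ∈ P
  cJ : ∀ x ∈ P, J x ∈ P

namespace HermLie

variable {br : E →ₗ[ℝ] E →ₗ[ℝ] E} {J : E →ₗ[ℝ] E} (h : HermLie br J) {P : Submodule ℝ E}

theorem jd_elim {v : E} (hv : v ∈ jd br J P) : ∃ n ∈ bs br P P, ∃ n' ∈ bs br P P, v = n + J n' := by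
  obtain ⟨n, hn, w, hw, rfl⟩ := Submodule.mem_sup.1 hv
  obtain ⟨n', hn', rfl⟩ := Submodule.mem_map.1 hw
  exact ⟨n, hn, n', hn', rfl⟩

theorem jd_intro {n n' : E} (hn : n ∈ bs br P P) (hn' : n' ∈ bs br P P) : n + J n' ∈ jd br J P :=
  Submodule.add_mem _ (Submodule.mem_sup_left hn)
    (Submodule.mem_sup_right (Submodule.mem_map_of_mem hn'))

theorem bs_le_jd : bs br P P ≤ jd br J P := le_sup_left

include h

theorem jd_J {v : E} (hv : v ∈ jd br J P) : J v ∈ jd br J P := by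
  obtain ⟨n, hn, n', hn', rfl⟩ := jd_elim hv
  rw [map_add, h.JJ, add_comm]
  exact jd_intro (Submodule.neg_mem _ hn') hn

omit h in
theorem bs_le_of (hP : JSub br J P) : bs br P P ≤ P := bs_le fun x hx y hy => hP.cbr x hx y hy

omit h in
theorem jd_le (hP : JSub br J P) : jd br J P ≤ P := by
  refine sup_le (bs_le_of hP) ?_
  rintro _ ⟨x, hx, rfl⟩
  exact hP.cJ _ (bs_le_of hP hx)

theorem jd_JSub (hP : JSub br J P) : JSub br J (jd br J P) :=
  ⟨fun x hx y hy => bs_le_jd (bs_mem (jd_le hP hx) (jd_le hP hy)), fun x hx => h.jd_J hx⟩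

theorem Jch_JSub (k : ℕ) : JSub br J (Jch br J k) := by
  induction k with
  | zero => exact ⟨fun _ _ _ _ => trivial, fun _ _ => trivial⟩
  | succ k ih => exact h.jd_JSub ih

theorem Ac_mem_jd (hP : JSub br J P) {x y : E} (hx : x ∈ P) (hy : y ∈ P) :
    Ac br J x y ∈ jd br J P := by
  rw [Ac_apply]
  exact Submodule.smul_mem _ _ (jd_intro (bs_mem hx hy) (bs_mem (hP.cJ _ hx) hy))

theorem Ac_mem (hP : JSub br J P) {x y : E} (hx : x ∈ P) (hy : y ∈ P) : Ac br J x y ∈ P :=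
  jd_le hP (h.Ac_mem_jd hP hx hy)

theorem JSub_perp (hP : JSub br J P) {y : E} (hy : y ∈ Pᗮ) : J y ∈ Pᗮ := by
  rw [Submodule.mem_orthogonal']
  intro v hv
  rw [h.innerJ, Submodule.inner_left_of_mem_orthogonal (hP.cJ _ hv) hy, neg_zero]

section A0
variable (hA0 : ∀ x ∈ P, ∀ y ∈ Pᗮ, Ac br J x y = 0)

include hA0

theorem Ac_pr {x : E} (hx : x ∈ P) (y : E) : Ac br J x y = Ac br J x (pr P y) := by
  have h1 := hA0 x hx _ (sub_pr_mem P y)
  rw [map_sub, sub_eq_zero] at h1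
  exact h1

theorem Ac_mem' (hP : JSub br J P) {x : E} (hx : x ∈ P) (y : E) : Ac br J x y ∈ P := by
  rw [h.Ac_pr hA0 hx]; exact h.Ac_mem hP hx (pr_mem _ _)

theorem Ac_mem_jd' (hP : JSub br J P) {x : E} (hx : x ∈ P) (y : E) : Ac br J x y ∈ jd br J P := by
  rw [h.Ac_pr hA0 hx]; exact h.Ac_mem_jd hP hx (pr_mem _ _)

theorem At_mem {x : E} (hx : x ∈ P) (y : E) : At (Ac br J) x y ∈ P := by
  rw [← Submodule.orthogonal_orthogonal P, Submodule.mem_orthogonal']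
  intro z hz
  rw [inner_At, hA0 x hx z hz, inner_zero_right]

theorem At_perp' (hP : JSub br J P) {x : E} (hx : x ∈ P) {y : E} (hy : y ∈ Pᗮ) :
    At (Ac br J) x y = 0 := by
  refine ext_inner_right ℝ fun z => ?_
  rw [inner_At, inner_zero_left]
  exact Submodule.inner_left_of_mem_orthogonal (h.Ac_mem' hA0 hP hx z) hy

theorem At_jdperp (hP : JSub br J P) {x : E} (hx : x ∈ P) {y : E} (hy : y ∈ (jd br J P)ᗮ) :
    At (Ac br J) x y = 0 := by
  refine ext_inner_right ℝ fun z => ?_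
  rw [inner_At, inner_zero_left]
  exact Submodule.inner_left_of_mem_orthogonal (h.Ac_mem_jd' hA0 hP hx z) hy

theorem Qf_jdperp (hP : JSub br J P) {b : E} (hbP : b ∈ P) (hb : b ∈ (jd br J P)ᗮ) :
    Qf (Ac br J) b = -‖Ac br J b b‖ ^ 2 := by
  unfold Qf
  rw [h.At_jdperp hA0 hP hbP hb, norm_zero,
    Submodule.inner_right_of_mem_orthogonal (h.Ac_mem_jd' hA0 hP (h.Ac_mem hP hbP hbP) b) hb]
  ring

variable (hQn : ∀ x, 0 ≤ Qf (Ac br J) x)
include hQn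

theorem d_self (hP : JSub br J P) {b : E} (hbP : b ∈ P) (hb : b ∈ (jd br J P)ᗮ) :
    Ac br J b b = 0 := by
  have h1 := hQn b
  rw [h.Qf_jdperp hA0 hP hbP hb] at h1
  have h2 : ‖Ac br J b b‖ ^ 2 = 0 := le_antisymm (by linarith) (by positivity)
  exact norm_eq_zero.1 (pow_eq_zero_iff (two_ne_zero)|>.1 h2)

theorem d_Qf (hP : JSub br J P) {b : E} (hbP : b ∈ P) (hb : b ∈ (jd br J P)ᗮ) :
    Qf (Ac br J) b = 0 := by
  rw [h.Qf_jdperp hA0 hP hbP hb, h.d_self hA0 hQn hP hbP hb, norm_zero]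
  ring

theorem d_pair (hP : JSub br J P) {b b' : E} (hbP : b ∈ P) (hb : b ∈ (jd br J P)ᗮ)
    (hbP' : b' ∈ P) (hb' : b' ∈ (jd br J P)ᗮ) : Ac br J b b' = 0 := by
  have h0 : ∀ b ∈ P, b ∈ (jd br J P)ᗮ → Ac br J b b = 0 := fun b h1 h2 =>
    h.d_self hA0 hQn hP h1 h2
  have h1 : ∀ b ∈ P, b ∈ (jd br J P)ᗮ → ∀ b' ∈ P, b' ∈ (jd br J P)ᗮ →
      Ac br J b b' + Ac br J b' b = 0 := by
    intro b hbP hb b' hbP' hb'
    have := h0 (b + b') (Submodule.add_mem _ hbP hbP') (Submodule.add_mem _ hb hb')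
    simp only [map_add, LinearMap.add_apply, h0 b hbP hb, h0 b' hbP' hb', zero_add, add_zero]
      at this
    rw [add_comm]; exact this
  have h2 := h1 b hbP hb b' hbP' hb'
  have h3 := h1 b hbP hb (J b') (hP.cJ _ hbP') (h.JSub_perp (h.jd_JSub hP) hb')
  rw [h.chern.A1, h.chern.A2, ← map_neg, ← map_add] at h3
  have h4 : Ac br J b b' + -Ac br J b' b = 0 := by
    apply h.chern.J_inj
    rw [h3, map_zero]
  have h5 : (2 : ℝ) • Ac br J b b' = 0 := by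
    rw [two_smul]
    have : Ac br J b b' + Ac br J b b' = (Ac br J b b' + Ac br J b' b) +
        (Ac br J b b' + -Ac br J b' b) := by abel
    rw [this, h2, h4, add_zero]
  exact (smul_eq_zero.1 h5).resolve_left (by norm_num)

theorem d_Q11 (hP : JSub br J P) {b : E} (hbP : b ∈ P) (hb : b ∈ (jd br J P)ᗮ) {Y : E}
    (hY : Y ∈ P) : 0 ≤ ‖At (Ac br J) b Y‖ ^ 2 - ‖Ac br J Y b‖ ^ 2 - ‖Ac br J b Y‖ ^ 2 -
      2 * ⟪Ac br J (Ac br J Y b) b, Y⟫_ℝ := by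
  have h1 := h.chern.Q11_nonneg hQn (h.d_Qf hA0 hQn hP hbP hb) Y
  unfold Q11 at h1
  have e1 : ⟪Ac br J (Ac br J Y Y) b, b⟫_ℝ = 0 :=
    Submodule.inner_right_of_mem_orthogonal (h.Ac_mem_jd hP (h.Ac_mem hP hY hY) hbP) hb
  have e2 : ⟪Ac br J (Ac br J b Y) Y, b⟫_ℝ = 0 :=
    Submodule.inner_right_of_mem_orthogonal (h.Ac_mem_jd hP (h.Ac_mem hP hbP hY) hY) hb
  rw [h.At_jdperp hA0 hP hY hb, h.d_self hA0 hQn hP hbP hb, e1, e2] at h1
  simp only [add_zero, map_zero, LinearMap.zero_apply, inner_zero_left] at h1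
  linarith

/-- the key step of the descent -/
theorem d_kill (hP : JSub br J P) {b : E} (hbP : b ∈ P) (hb : b ∈ (jd br J P)ᗮ) {Y : E}
    (hY : Y ∈ P) : Ac br J Y b = 0 := by
  -- the trace identity
  have hJbP := hP.cJ _ hbP
  let D : P →ₗ[ℝ] P := (br b).restrict (fun x hx => hP.cbr b hbP x hx)
  let D' : P →ₗ[ℝ] P := (br (J b)).restrict (fun x hx => hP.cbr _ hJbP x hx)
  let JP : P →ₗ[ℝ] P := J.restrict (fun x hx => hP.cJ x hx)
  have hbb : br (J b) b = 0 := by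
    have h1 := h.d_self hA0 hQn hP hbP hb
    rw [Ac_apply, h.self, zero_add] at h1
    have h2 := (smul_eq_zero.1 h1).resolve_left (by norm_num)
    have h3 := congrArg J h2
    rw [h.JJ, map_zero, neg_eq_zero] at h3
    exact h3
  have htr : LinearMap.trace ℝ P ((D + JP ∘ₗ D ∘ₗ JP) ∘ₗ (D + JP ∘ₗ D ∘ₗ JP)) = 0 := by
    refine trace_phi D D' JP ?_ ?_ ?_
    · intro x
      apply Subtype.ext
      exact h.JJ x
    · intro x
      apply Subtype.ext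
      show br (J b) (J x) - J (br (J b) x) = br b x + J (br b (J x))
      have h1 := h.integ' b x
      rw [map_add] at h1
      have h2 : br (J b) (J (x : E)) = J (br (J b) x) + J (br b (J x)) + br b x := by
        rw [h1]; abel
      rw [h2]; abel
    · intro x
      apply Subtype.ext
      show br b (br (J b) x) = br (J b) (br b x)
      have h1 := h.jacobi b (J b) x
      rw [h.skew b (J b), hbb, neg_zero, map_zero, LinearMap.zero_apply, zero_add] at h1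
      exact h1
  have hphi : ∀ x : P, Ac br J x b = -(1 / 2 : ℝ) • ((D + JP ∘ₗ D ∘ₗ JP) x : P) := by
    intro x
    have h1 : (((D + JP ∘ₗ D ∘ₗ JP) x : P) : E) = br b x + J (br b (J x)) := rfl
    rw [h1, Ac_apply, h.skew x b, h.skew (J x) b, map_neg]
    module
  let o := stdOrthonormalBasis ℝ P
  have hsum : ∑ i, ⟪Ac br J (Ac br J (o i) b) b, (o i : E)⟫_ℝ = 0 := by
    have h1 : ∀ i, ⟪Ac br J (Ac br J (o i) b) b, (o i : E)⟫_ℝ =
        (1 / 4 : ℝ) * ⟪o i, ((D + JP ∘ₗ D ∘ₗ JP) ∘ₗ (D + JP ∘ₗ D ∘ₗ JP)) (o i)⟫_ℝ := by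
      intro i
      have h2 : ⟪o i, ((D + JP ∘ₗ D ∘ₗ JP) ∘ₗ (D + JP ∘ₗ D ∘ₗ JP)) (o i)⟫_ℝ =
          ⟪(o i : E), (((D + JP ∘ₗ D ∘ₗ JP) ((D + JP ∘ₗ D ∘ₗ JP) (o i)) : P) : E)⟫_ℝ := rfl
      rw [h2, hphi (o i), map_smul, LinearMap.smul_apply, hphi, smul_smul, inner_smul_left,
        real_inner_comm]
      simp only [conj_trivial]
      norm_num
    rw [Finset.sum_congr rfl fun i _ => h1 i, ← Finset.mul_sum, ← LinearMap.trace_eq_sum_inner,
      htr, mul_zero]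
  have hcmp := hs_compare P o (Ac br J b) (fun w hw => h.Ac_mem hP hbP hw)
    (fun i => At (Ac br J) b (o i)) (by intro i j; rw [inner_At])
  have hz : ∀ i, ‖At (Ac br J) b (o i) - pr P (At (Ac br J) b (o i))‖ ^ 2 = 0 := by
    intro i
    rw [pr_eq_self (h.At_mem hA0 hbP _), sub_self, norm_zero]; ring
  rw [Finset.sum_congr rfl fun i _ => hz i, Finset.sum_const_zero, add_zero] at hcmp
  have hQs : 0 ≤ ∑ i, (‖At (Ac br J) b (o i)‖ ^ 2 - ‖Ac br J (o i) b‖ ^ 2 -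
      ‖Ac br J b (o i)‖ ^ 2 - 2 * ⟪Ac br J (Ac br J (o i) b) b, (o i : E)⟫_ℝ) :=
    Finset.sum_nonneg fun i _ => h.d_Q11 hA0 hQn hP hbP hb (o i).2
  rw [Finset.sum_sub_distrib, Finset.sum_sub_distrib, Finset.sum_sub_distrib, ← Finset.mul_sum,
    hsum, hcmp] at hQs
  have h5 : ∑ i, ‖Ac br J (o i) b‖ ^ 2 = 0 :=
    le_antisymm (by linarith) (Finset.sum_nonneg fun i _ => by positivity)
  rw [Finset.sum_eq_zero_iff_of_nonneg (fun i _ => by positivity)] at h5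
  have h6 : ∀ i, Ac br J (o i) b = 0 := fun i =>
    norm_eq_zero.1 (pow_eq_zero_iff (two_ne_zero)|>.1 (h5 i (Finset.mem_univ i)))
  have h8 : Y = ∑ i, (o.repr ⟨Y, hY⟩ i) • (o i : E) := coe_sum_repr o hY
  rw [h8, map_sum, LinearMap.sum_apply]
  refine Finset.sum_eq_zero fun i _ => ?_
  rw [map_smul, LinearMap.smul_apply, h6 i, smul_zero]

/-- the condition `hA0` passes to `P' + J P'` -/
theorem d_next (hP : JSub br J P) : ∀ x ∈ jd br J P, ∀ y ∈ (jd br J P)ᗮ, Ac br J x y = 0 := by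
  intro x hx y hy
  have hxP := jd_le hP hx
  rw [h.Ac_pr hA0 hxP]
  refine h.d_kill hA0 hQn hP (pr_mem _ _) ?_ hxP
  have h1 : y - pr P y ∈ (jd br J P)ᗮ := Submodule.orthogonal_le (jd_le hP) (sub_pr_mem P y)
  have h2 := Submodule.sub_mem _ hy h1
  rwa [sub_sub_cancel] at h2

/-- norms of `A b` and its transpose agree -/
theorem d_norm (hP : JSub br J P) {b : E} (hbP : b ∈ P) (hb : b ∈ (jd br J P)ᗮ) (Y : E) :
    ‖At (Ac br J) b Y‖ = ‖Ac br J b Y‖ := by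
  have key : ∀ Y ∈ P, ‖At (Ac br J) b Y‖ = ‖Ac br J b Y‖ := by
    let o := stdOrthonormalBasis ℝ P
    refine psd_trace_zero o (At (Ac br J) b) (Ac br J b) ?_ ?_
    · intro Y hY
      have h1 := h.d_Q11 hA0 hQn hP hbP hb hY
      rw [h.d_kill hA0 hQn hP hbP hb hY, map_zero, LinearMap.zero_apply, inner_zero_left,
        norm_zero] at h1
      linarith
    · have hcmp := hs_compare P o (Ac br J b) (fun w hw => h.Ac_mem hP hbP hw)
        (fun i => At (Ac br J) b (o i)) (by intro i j; rw [inner_At])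
      have hz : ∀ i, ‖At (Ac br J) b (o i) - pr P (At (Ac br J) b (o i))‖ ^ 2 = 0 := by
        intro i
        rw [pr_eq_self (h.At_mem hA0 hbP _), sub_self, norm_zero]; ring
      rw [Finset.sum_congr rfl fun i _ => hz i, Finset.sum_const_zero, add_zero] at hcmp
      rw [Finset.sum_sub_distrib, hcmp, sub_self]
  have h1 : At (Ac br J) b Y = At (Ac br J) b (pr P Y) := by
    have := h.At_perp' hA0 hP hbP (sub_pr_mem P Y)
    rwa [map_sub, sub_eq_zero] at this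
  rw [h1, h.Ac_pr hA0 hbP Y]
  exact key _ (pr_mem _ _)

end A0

theorem Jch_A0 (hQn : ∀ x, 0 ≤ Qf (Ac br J) x) (k : ℕ) :
    ∀ x ∈ Jch br J k, ∀ y ∈ (Jch br J k)ᗮ, Ac br J x y = 0 := by
  induction k with
  | zero =>
    intro x _ y hy
    have h1 : y ∈ (⊤ : Submodule ℝ E)ᗮ := hy
    rw [Submodule.top_orthogonal_eq_bot] at h1
    rw [(Submodule.mem_bot ℝ).1 h1, map_zero]
  | succ k ih => exact h.d_next ih hQn (h.Jch_JSub k)

end HermLie

end Pool.Agent.Lib.MP_a150d7_gt
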