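import Pool.Agent.Lib.MP_a150d7_gt.Mg.G001

/-! `s_main_lie` and `chain_of_metabelian` are in `Pool/Agent/Lib/MP_a150d7_gt/Mg/G001.lean`. -/
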