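import Pool.Agent.Lib.MP_a150d7_gt.SUnit
import Pool.Agent.Lib.MP_a150d7_gt.Final

/-!
Assembly: solvable Lie algebras whose `J`-derived chain has no stationary term of Siegel type.
-/

set_option linter.unusedSectionVars false

open Module
open scoped InnerProductSpace

namespace Pool.Agent.Lib.MP_a150d7_gt

variable {E : Type*} [NormedAddCommGroup E] [InnerProductSpace ℝ E] [FiniteDimensional ℝ E]

namespace HermLie

variable {br : E →ₗ[ℝ] E →ₗ[ℝ] E} {J : E →ₗ[ℝ] E} (h : HermLie br J) {c : ℝ}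
include h

theorem top_A0 : ∀ x ∈ (⊤ : Submodule ℝ E), ∀ y ∈ (⊤ : Submodule ℝ E)ᗮ, Ac br J x y = 0 := by
  intro x _ y hy
  rw [Submodule.top_orthogonal_eq_bot] at hy
  rw [(Submodule.mem_bot ℝ).1 hy, map_zero]

theorem c_nonneg [Nontrivial E] (hs : Solv br) (huni : ∀ x, LinearMap.trace ℝ E (br x) = 0)
    (hQ : ∀ x, Qf (Ac br J) x = c * ‖x‖ ^ 4) : 0 ≤ c := by
  obtain ⟨y, hy0, hy⟩ := exists_comm_elem h.self h.jacobi hs J h.JJ
    (fun x y => by have := h.integ x y; rw [map_add, ← add_assoc] at this; exact this) huni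
  have h1 : Ac br J y y = 0 := by
    rw [Ac_apply, h.self, h.skew (J y) y, hy, neg_zero, map_zero, add_zero, smul_zero]
  have h2 := hQ y
  unfold Qf at h2
  rw [h1, map_zero, LinearMap.zero_apply, norm_zero, inner_zero_left] at h2
  by_contra hc
  push Not at hc
  have hpos : 0 < ‖y‖ ^ 4 := by positivity
  have h3 : c * ‖y‖ ^ 4 < 0 := mul_neg_of_neg_of_pos hc hpos
  have h4 : 0 ≤ ‖At (Ac br J) y y‖ ^ 2 := by positivity
  linarith

variable (hNS : ∀ k, Jch br J (k + 1) = Jch br J k → Jch br J k ≠ ⊥ →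
  ww br J (Jch br J k) ≠ Jch br J k)

include hNS

theorem chain_bot (hQn : ∀ x, 0 ≤ Qf (Ac br J) x) : ∃ k, Jch br J k = ⊥ := by
  by_contra hne
  push Not at hne
  have key : ∀ k, finrank ℝ (Jch br J k) + k ≤ finrank ℝ E := by
    intro k
    induction k with
    | zero => exact Submodule.finrank_le _
    | succ k ih =>
      have h1 : Jch br J (k + 1) ≠ Jch br J k := by
        intro h2
        obtain ⟨x, hx⟩ := h.unit_neg (h.Jch_JSub k) (h.Jch_A0 hQn k) h2.ge (hNS k h2 (hne k))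
        exact absurd (hQn x) (not_le.2 hx)
      have h2 : Jch br J (k + 1) < Jch br J k := lt_of_le_of_ne (jd_le (h.Jch_JSub k)) h1
      have h3 := Submodule.finrank_lt_finrank_of_lt h2
      omega
  have h1 := key (finrank ℝ E + 1)
  omega

theorem S_up (hQn : ∀ x, 0 ≤ Qf (Ac br J) x) :
    (∀ x y v, Ac br J (Ac br J x y) v = 0) ∧
      ∀ x y v, Ac br J x (At (Ac br J) y v) = At (Ac br J) y (Ac br J x v) := by
  obtain ⟨n, hn⟩ := h.chain_bot hNS hQn
  have key : ∀ k ≤ n, (∀ x ∈ Jch br J (n - k), ∀ y ∈ Jch br J (n - k), ∀ v,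
      Ac br J (Ac br J x y) v = 0) ∧ (∀ x ∈ Jch br J (n - k), ∀ y ∈ Jch br J (n - k), ∀ v,
      Ac br J x (At (Ac br J) y v) = At (Ac br J) y (Ac br J x v)) := by
    intro k
    induction k with
    | zero =>
      intro _
      rw [Nat.sub_zero, hn]
      constructor
      · intro x hx y hy v
        rw [(Submodule.mem_bot ℝ).1 hx, map_zero, LinearMap.zero_apply, map_zero,
          LinearMap.zero_apply]
      · intro x hx y hy v
        rw [(Submodule.mem_bot ℝ).1 hx, (Submodule.mem_bot ℝ).1 hy, map_zero,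
          LinearMap.zero_apply, LinearMap.zero_apply, map_zero]
    | succ k ih =>
      intro hk
      obtain ⟨i1, i2⟩ := ih (by omega)
      have e : n - k = (n - (k + 1)) + 1 := by omega
      rw [e] at i1 i2
      exact ⟨h.up_S1 (h.Jch_A0 hQn _) hQn i1 (h.Jch_JSub _) i2,
        h.up_S2 (h.Jch_A0 hQn _) hQn i1 (h.Jch_JSub _) i2⟩
  have h1 := key n le_rfl
  rw [Nat.sub_self] at h1
  exact ⟨fun x y v => h1.1 x trivial y trivial v, fun x y v => h1.2 x trivial y trivial v⟩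

/-- the quartic form vanishes if it is nonnegative -/
theorem Qf_zero (hQn : ∀ x, 0 ≤ Qf (Ac br J) x) (x : E) : Qf (Ac br J) x = 0 := by
  obtain ⟨s1, s2⟩ := h.S_up hNS hQn
  have a9 : ‖At (Ac br J) x x‖ ^ 2 = ‖Ac br J x x‖ ^ 2 := by
    rw [← real_inner_self_eq_norm_sq, ← real_inner_self_eq_norm_sq, inner_At, s2, inner_At']
  unfold Qf
  rw [a9, s1, inner_zero_left]
  ring

variable {D : E →ₗ[ℝ] E →ₗ[ℝ] E}
  (hm : ∀ x y z, ⟪D x y, z⟫_ℝ + ⟪y, D x z⟫_ℝ = 0)
  (hJ : ∀ x y, D x (J y) = J (D x y))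
  (hT : ∀ x y, D (J x) y - D y (J x) - br (J x) y = D x (J y) - D (J y) x - br x (J y))

include hm hJ hT

/-- Main theorem in the language of inner product spaces. -/
theorem s_main [Nontrivial E] {c : ℝ}
    (hsign : 0 ≤ c ∨ (Solv br ∧ ∀ x, LinearMap.trace ℝ E (br x) = 0))
    (hc : ∀ x, ⟪D x (D (J x) (J x)) - D (J x) (D x (J x)) - D (br x (J x)) (J x), x⟫_ℝ =
      c * ‖x‖ ^ 4) :
    c = 0 ∧ ∀ x y z, D x (D y z) - D y (D x z) - D (br x y) z = 0 := by
  have hQ : ∀ x, Qf (Ac br J) x = (c / 2) * ‖x‖ ^ 4 := by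
    intro x
    have h1 := hc x
    rw [h.curv_hol hm hJ hT] at h1
    linarith
  have hc1 : 0 ≤ c / 2 := by
    rcases hsign with h1 | ⟨h1, h2⟩
    · linarith
    · exact h.c_nonneg h1 h2 hQ
  have hQn : ∀ x, 0 ≤ Qf (Ac br J) x := fun x => by rw [hQ]; positivity
  have hc0 : c = 0 := by
    obtain ⟨x, hx⟩ := exists_ne (0 : E)
    have h1 := h.Qf_zero hNS hQn x
    rw [hQ] at h1
    have h2 : ‖x‖ ^ 4 ≠ 0 := by positivity
    have h3 := (mul_eq_zero.1 h1).resolve_right h2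
    linarith
  obtain ⟨s1, s2⟩ := h.S_up hNS hQn
  refine ⟨hc0, fun x y z => ?_⟩
  have hD : ∀ x z, D x z = (Ac br J x - At (Ac br J) x) z := fun x z => by
    rw [h.D_eq hm hJ hT, LinearMap.sub_apply]
  rw [hD x, hD y z, hD y, hD x z, hD (br x y)]
  exact h.flat_of_S s1 s2 x y z

end HermLie

end Pool.Agent.Lib.MP_a150d7_gt
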