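import Mathlib

/-!
The derived algebra of a solvable Lie algebra acts nilpotently.
-/

open Module TensorProduct

namespace Pool.Agent.Lib.MP_a150d7_gt

/-- over an algebraically closed field -/
theorem nilp_derived_aux (K : Type*) [Field K] [CharZero K] [IsAlgClosed K] (L : Type*) [LieRing L]
    [LieAlgebra K L] [FiniteDimensional K L] [LieAlgebra.IsSolvable L] :
    ∀ (n : ℕ) (M : Type*) [AddCommGroup M] [Module K M] [LieRingModule L M] [LieModule K L M]
      [FiniteDimensional K M], finrank K M ≤ n → ∀ x ∈ LieAlgebra.derivedSeries K L 1,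
        IsNilpotent (LieModule.toEnd K L M x) := by
  intro n
  induction n with
  | zero =>
    intro M _ _ _ _ _ hn x _
    have : Subsingleton M := (finrank_zero_iff (R := K)).1 (by omega)
    exact ⟨1, Subsingleton.elim _ _⟩
  | succ n ih =>
    intro M _ _ _ _ _ hn x hx
    by_cases hM : Nontrivial M
    swap
    · rw [not_nontrivial_iff_subsingleton] at hM
      exact ⟨1, Subsingleton.elim _ _⟩
    obtain ⟨χ, hχ⟩ := LieModule.exists_nontrivial_weightSpace_of_isSolvable K L M
    obtain ⟨⟨v, hv⟩, hv0⟩ := exists_ne (0 : LieModule.weightSpace M χ)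
    rw [LieModule.mem_weightSpace] at hv
    have hv0' : v ≠ 0 := fun h => hv0 (Subtype.ext h)
    let N : LieSubmodule K L M :=
      { K ∙ v with
        lie_mem := by
          intro y m hm
          obtain ⟨c, rfl⟩ := Submodule.mem_span_singleton.1 hm
          rw [lie_smul, hv]
          exact Submodule.smul_mem _ _ (Submodule.smul_mem _ _ (Submodule.mem_span_singleton_self v)) }
    have hN : ∀ m, m ∈ N ↔ ∃ c : K, c • v = m := fun m => Submodule.mem_span_singleton
    have hvN : v ∈ N := (hN v).2 ⟨1, one_smul _ _⟩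
    -- `x` kills `N`
    have hχs : ∀ x ∈ Submodule.span K {⁅x, y⁆ | (x : L) (y : L)}, ⁅x, v⁆ = 0 := by
      intro x hx
      induction hx using Submodule.span_induction with
      | mem z hz =>
        obtain ⟨a, b, rfl⟩ := hz
        rw [lie_lie, hv b, hv a, lie_smul, lie_smul, hv a, hv b, smul_smul, smul_smul, mul_comm,
          sub_self]
      | zero => exact zero_lie v
      | add a b _ _ iha ihb => rw [add_lie, iha, ihb, add_zero]
      | smul c a _ iha => rw [smul_lie, iha, smul_zero]
    have hχx : ∀ x ∈ LieAlgebra.derivedSeries K L 1, ⁅x, v⁆ = 0 := by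
      intro x hx
      apply hχs
      rw [← LieAlgebra.coe_derivedSeries_one_eq]
      exact hx
    have hlt : finrank K (M ⧸ N) < finrank K M := by
      have h1 := Submodule.finrank_quotient_add_finrank (N : Submodule K M)
      have h2 : 0 < finrank K (N : Submodule K M) := by
        rw [finrank_pos_iff, Submodule.nontrivial_iff_ne_bot]
        intro h
        have h3 : v ∈ (N : Submodule K M) := hvN
        rw [h] at h3
        exact hv0' ((Submodule.mem_bot K).1 h3)
      have h3 : finrank K (M ⧸ N) = finrank K (M ⧸ (N : Submodule K M)) := rfl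
      omega
    obtain ⟨k, hk⟩ := ih (M ⧸ N) (by omega) x hx
    refine ⟨k + 1, ?_⟩
    ext m
    have h1 : ∀ j : ℕ, (LieModule.toEnd K L (M ⧸ N) x ^ j) (LieSubmodule.Quotient.mk m) =
        LieSubmodule.Quotient.mk ((LieModule.toEnd K L M x ^ j) m) := by
      intro j
      induction j with
      | zero => rfl
      | succ j ihj =>
        rw [pow_succ', pow_succ', Module.End.mul_apply, Module.End.mul_apply, ihj]
        rfl
    have h2 : (LieModule.toEnd K L M x ^ k) m ∈ N := by
      rw [← LieSubmodule.Quotient.mk_eq_zero', ← h1, hk]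
      rfl
    obtain ⟨c, hc⟩ := (hN _).1 h2
    rw [pow_succ', Module.End.mul_apply, ← hc, map_smul, LieModule.toEnd_apply_apply, hχx x hx,
      smul_zero]
    rfl

/-- The derived algebra of a real solvable Lie algebra acts nilpotently. -/
theorem nilp_derived (L : Type*) [LieRing L] [LieAlgebra ℝ L] [FiniteDimensional ℝ L]
    [LieAlgebra.IsSolvable L] : LieModule.IsNilpotent (LieAlgebra.derivedSeries ℝ L 1) L := by
  rw [LieModule.isNilpotent_iff_forall' (R := ℝ)]
  intro ⟨x, hx⟩
  have hx_ext : (1 : ℂ) ⊗ₜ[ℝ] x ∈ LieAlgebra.derivedSeries ℂ (ℂ ⊗[ℝ] L) 1 := by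
    rw [LieAlgebra.derivedSeries_baseChange]
    exact Submodule.tmul_mem_baseChange_of_mem 1 hx
  have hbc_inj : Function.Injective (Module.End.baseChangeHom ℝ ℂ L) :=
    LinearMap.baseChangeHom_injective ℝ L ℂ
  have aux : Module.End.baseChangeHom ℝ ℂ L
      (LieModule.toEnd ℝ (LieAlgebra.derivedSeries ℝ L 1) L ⟨x, hx⟩) =
      (LieModule.toEnd ℝ L L x).baseChange ℂ := rfl
  rw [← IsNilpotent.map_iff hbc_inj, aux, ← LieModule.toEnd_baseChange]
  exact nilp_derived_aux ℂ (ℂ ⊗[ℝ] L) _ (ℂ ⊗[ℝ] L) le_rfl _ hx_ext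

end Pool.Agent.Lib.MP_a150d7_gt
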