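import Mathlib

/-!
Trace lemmas for the solvable case: additivity of the trace along an invariant subspace, and the
trace of an operator which scales a bilinear form.
-/

open Module

namespace Pool.Agent.Lib.MP_a150d7_gt

section
variable {V : Type*} [AddCommGroup V] [Module ℝ V] [FiniteDimensional ℝ V]

/-- the trace is additive along an invariant subspace -/
theorem trace_restrict_add_mapQ (K : Submodule ℝ V) (T : V →ₗ[ℝ] V) (hT : ∀ x ∈ K, T x ∈ K) :
    LinearMap.trace ℝ V T = LinearMap.trace ℝ K (T.restrict hT) +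
      LinearMap.trace ℝ (V ⧸ K) (K.mapQ K T hT) := by
  obtain ⟨s, hs⟩ := LinearMap.exists_rightInverse_of_surjective K.mkQ K.range_mkQ
  have hs' : ∀ x, K.mkQ (s x) = x := fun x => LinearMap.congr_fun hs x
  set p : V →ₗ[ℝ] V := LinearMap.id - s ∘ₗ K.mkQ with hp
  have hpK : ∀ x, p x ∈ K := by
    intro x
    rw [← K.ker_mkQ, LinearMap.mem_ker, hp]
    simp only [LinearMap.sub_apply, LinearMap.id_apply, LinearMap.comp_apply, map_sub, hs', sub_self]
  have h1 : T = p ∘ₗ T + s ∘ₗ (K.mkQ ∘ₗ T) := by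
    ext x
    simp only [hp, LinearMap.add_apply, LinearMap.comp_apply, LinearMap.sub_apply,
      LinearMap.id_apply, sub_add_cancel]
  have h2 : LinearMap.trace ℝ V (p ∘ₗ T) = LinearMap.trace ℝ K (T.restrict hT) := by
    rw [← LinearMap.trace_restrict_eq_of_forall_mem K (p ∘ₗ T) (fun x => hpK _)]
    congr 1
    ext x
    have h3 : K.mkQ (T x) = 0 := by
      rw [← LinearMap.mem_ker, K.ker_mkQ]; exact hT _ x.2
    simp only [LinearMap.coe_restrict_apply, LinearMap.comp_apply, hp, LinearMap.sub_apply,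
      LinearMap.id_apply, h3, map_zero, sub_zero]
  have h4 : LinearMap.trace ℝ V (s ∘ₗ (K.mkQ ∘ₗ T)) =
      LinearMap.trace ℝ (V ⧸ K) (K.mapQ K T hT) := by
    rw [LinearMap.trace_comp_comm']
    congr 1
    apply LinearMap.ext
    intro x
    have h5 : (K.mkQ ∘ₗ T) (s x) = K.mapQ K T hT (K.mkQ (s x)) := rfl
    rw [LinearMap.comp_apply, h5, hs']
  conv_lhs => rw [h1]
  rw [map_add, h2, h4]

/-- an operator scaling a nondegenerate form -/
theorem trace_of_form_nondeg (w : V →ₗ[ℝ] V →ₗ[ℝ] ℝ) (hw : ∀ x, (∀ y, w x y = 0) → x = 0)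
    (T : V →ₗ[ℝ] V) (κ : ℝ) (hT : ∀ x y, w (T x) y + w x (T y) = κ * w x y) :
    2 * LinearMap.trace ℝ V T = κ * finrank ℝ V := by
  have hinj : Function.Injective (w : V →ₗ[ℝ] Module.Dual ℝ V) := by
    rw [← LinearMap.ker_eq_bot, LinearMap.ker_eq_bot']
    intro x hx
    exact hw x fun y => LinearMap.congr_fun hx y
  let e : V ≃ₗ[ℝ] Module.Dual ℝ V := LinearEquiv.ofInjectiveOfFinrankEq w hinj
    (Subspace.dual_finrank_eq).symm
  have he : ∀ x y, e x y = w x y := fun x y => rfl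
  set D : Module.Dual ℝ V →ₗ[ℝ] Module.Dual ℝ V := Module.Dual.transpose (R := ℝ) T with hD
  have hD' : ∀ (f : Module.Dual ℝ V) (y : V), D f y = f (T y) := fun f y => rfl
  have h1 : e.conj T + D = κ • LinearMap.id := by
    apply LinearMap.ext
    intro f
    obtain ⟨x, rfl⟩ := e.surjective f
    apply LinearMap.ext
    intro y
    have h2 := hT x y
    rw [LinearMap.add_apply, LinearEquiv.conj_apply_apply, e.symm_apply_apply, LinearMap.add_apply,
      he, hD', he]
    exact h2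
  have h2 : LinearMap.trace ℝ (Module.Dual ℝ V) (e.conj T) = LinearMap.trace ℝ V T :=
    LinearMap.trace_conj' T e
  have h3 : LinearMap.trace ℝ (Module.Dual ℝ V) D = LinearMap.trace ℝ V T :=
    LinearMap.trace_transpose' (R := ℝ) T
  have h4 : LinearMap.trace ℝ (Module.Dual ℝ V) (e.conj T + D) = κ * finrank ℝ V := by
    rw [h1, LinearMap.map_smul, LinearMap.trace_id, Subspace.dual_finrank_eq, smul_eq_mul]
  rw [map_add, h2, h3] at h4
  linarith

/-- an operator scaling a skew form with kernel `K` -/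
theorem trace_of_form (w : V →ₗ[ℝ] V →ₗ[ℝ] ℝ) (hsk : ∀ x y, w x y = -w y x) (K : Submodule ℝ V)
    (hK : ∀ x, x ∈ K ↔ ∀ y, w x y = 0) (T : V →ₗ[ℝ] V) (hTK : ∀ x ∈ K, T x ∈ K) (κ : ℝ)
    (hT : ∀ x y, w (T x) y + w x (T y) = κ * w x y) :
    2 * LinearMap.trace ℝ V T = 2 * LinearMap.trace ℝ K (T.restrict hTK) +
      κ * finrank ℝ (V ⧸ K) := by
  -- the induced form on the quotient
  have h0 : ∀ x ∈ K, w x = 0 := by
    intro x hx
    ext y
    exact (hK x).1 hx y
  let w1 : V ⧸ K →ₗ[ℝ] V →ₗ[ℝ] ℝ := K.liftQ w (fun x hx => h0 x hx)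
  have hw1 : ∀ x y, w1 (K.mkQ x) y = w x y := fun x y => rfl
  let w2 : V ⧸ K →ₗ[ℝ] V ⧸ K →ₗ[ℝ] ℝ := (K.liftQ w1.flip (fun x hx => by
    rw [LinearMap.mem_ker]
    apply LinearMap.ext
    intro y
    obtain ⟨y, rfl⟩ := K.mkQ_surjective y
    show w1 (K.mkQ y) x = 0
    rw [hw1, hsk, (hK x).1 hx y, neg_zero])).flip
  have hw2 : ∀ x y, w2 (K.mkQ x) (K.mkQ y) = w x y := fun x y => rfl
  have h1 := trace_of_form_nondeg w2 (by
    intro x hx
    obtain ⟨x, rfl⟩ := K.mkQ_surjective x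
    rw [← LinearMap.mem_ker, K.ker_mkQ, hK]
    intro y
    exact hx (K.mkQ y)) (K.mapQ K T hTK) κ (by
    intro x y
    obtain ⟨x, rfl⟩ := K.mkQ_surjective x
    obtain ⟨y, rfl⟩ := K.mkQ_surjective y
    exact hT x y)
  rw [trace_restrict_add_mapQ K T hTK]
  linarith

end

end Pool.Agent.Lib.MP_a150d7_gt
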