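import Pool.Agent.Lib.MP_a150d7_gt.SUp

/-!
A commutative associative algebra spanned by its products has a unit; if the `J`-derived chain is
stationary then the holomorphic sectional curvature is negative somewhere.
-/

set_option linter.unusedSectionVars false

open Module
open scoped InnerProductSpace

namespace Pool.Agent.Lib.MP_a150d7_gt

section unit
variable {V : Type*} [AddCommGroup V] [Module ℝ V] [FiniteDimensional ℝ V]

open scoped IsMulCommutative in
theorem exists_unit_aux (L : V →ₗ[ℝ] V →ₗ[ℝ] V) (hc : ∀ x y, L x y = L y x)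
    (hs : Submodule.span ℝ {v | ∃ x y, v = L x y} = ⊤)
    (R : Subalgebra ℝ (Module.End ℝ V)) [IsMulCommutative R] (hmem : ∀ x, L x ∈ R) :
    ∃ e, ∀ x, L e x = x := by
  have hsmul : ∀ (r : R) (v : V), r • v = (r : Module.End ℝ V) v := fun r v => rfl
  -- the ideal of the `L u`
  let I : Ideal R :=
    { carrier := {r | ∃ u, (r : Module.End ℝ V) = L u}
      add_mem' := by
        rintro a b ⟨u, hu⟩ ⟨w, hw⟩
        refine ⟨u + w, ?_⟩
        rw [map_add, ← hu, ← hw]; rfl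
      zero_mem' := ⟨0, by rw [map_zero]; rfl⟩
      smul_mem' := by
        rintro c a ⟨u, hu⟩
        refine ⟨(c : Module.End ℝ V) u, ?_⟩
        ext z
        have h1 : c * ⟨L z, hmem z⟩ = ⟨L z, hmem z⟩ * c := mul_comm _ _
        have h2 : (c : Module.End ℝ V) * L z = L z * (c : Module.End ℝ V) :=
          congrArg Subtype.val h1
        show (c : Module.End ℝ V) ((a : Module.End ℝ V) z) = _
        rw [hu, hc u z, hc _ z]
        exact LinearMap.congr_fun h2 u }
  have hsm : ∀ (N : Submodule R V) (c : ℝ) (x : V), x ∈ N → c • x ∈ N := by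
    intro N c x hx
    have h2 : c • x = (algebraMap ℝ R c) • x := by
      rw [hsmul]; rfl
    rw [h2]
    exact Submodule.smul_mem _ _ hx
  have hfg : (⊤ : Submodule R V).FG := by
    obtain ⟨s, hs⟩ := (Module.Finite.fg_top : (⊤ : Submodule ℝ V).FG)
    refine ⟨s, ?_⟩
    rw [eq_top_iff]
    intro v _
    have h1 : v ∈ Submodule.span ℝ (s : Set V) := by rw [hs]; trivial
    refine Submodule.span_induction (p := fun v _ => v ∈ Submodule.span R (s : Set V))
      ?_ ?_ ?_ ?_ h1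
    · intro x hx; exact Submodule.subset_span hx
    · exact Submodule.zero_mem _
    · intro x y _ _ hx hy; exact Submodule.add_mem _ hx hy
    · intro c x _ hx
      exact hsm _ c x hx
  have hle : (⊤ : Submodule R V) ≤ I • (⊤ : Submodule R V) := by
    intro v _
    have h1 : v ∈ Submodule.span ℝ {v | ∃ x y, v = L x y} := by rw [hs]; trivial
    refine Submodule.span_induction (p := fun v _ => v ∈ I • (⊤ : Submodule R V))
      ?_ ?_ ?_ ?_ h1
    · rintro _ ⟨x, y, rfl⟩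
      have h2 : (⟨L x, hmem x⟩ : R) • y ∈ I • (⊤ : Submodule R V) :=
        Submodule.smul_mem_smul ⟨x, rfl⟩ trivial
      exact h2
    · exact Submodule.zero_mem _
    · intro x y _ _ hx hy; exact Submodule.add_mem _ hx hy
    · intro c x _ hx
      exact hsm _ c x hx
  obtain ⟨r, ⟨u, hu⟩, hr⟩ := Submodule.exists_sub_one_mem_and_smul_eq_zero_of_fg_of_le_smul I ⊤
    hfg hle
  refine ⟨-u, fun x => ?_⟩
  have h1 : (r : Module.End ℝ V) x = 0 := hr x trivial
  have h2 : (r : Module.End ℝ V) x - x = L u x := by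
    rw [← hu]; rfl
  rw [h1, zero_sub] at h2
  rw [map_neg, LinearMap.neg_apply, ← h2, neg_neg]

theorem exists_unit (L : V →ₗ[ℝ] V →ₗ[ℝ] V) (hc : ∀ x y, L x y = L y x)
    (ha : ∀ x y z, L (L x y) z = L x (L y z))
    (hs : Submodule.span ℝ {v | ∃ x y, v = L x y} = ⊤) : ∃ e, ∀ x, L e x = x := by
  have hLL : ∀ x y, L (L x y) = L x * L y := fun x y => LinearMap.ext fun z => ha x y z
  have hcomm : ∀ a ∈ Set.range (fun x => (L x : Module.End ℝ V)),
      ∀ b ∈ Set.range (fun x => (L x : Module.End ℝ V)), a * b = b * a := by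
    rintro _ ⟨x, rfl⟩ _ ⟨y, rfl⟩
    show L x * L y = L y * L x
    rw [← hLL, ← hLL, hc x y]
  have := Algebra.isMulCommutative_adjoin ℝ hcomm
  exact exists_unit_aux L hc hs (Algebra.adjoin ℝ (Set.range (fun x => (L x : Module.End ℝ V))))
    fun x => Algebra.subset_adjoin ⟨x, rfl⟩

end unit

variable {E : Type*} [NormedAddCommGroup E] [InnerProductSpace ℝ E] [FiniteDimensional ℝ E]

/-- `(P' ∩ J P') + P''` -/
def kk (br : E →ₗ[ℝ] E →ₗ[ℝ] E) (J : E →ₗ[ℝ] E) (P : Submodule ℝ E) : Submodule ℝ E :=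
  (bs br P P ⊓ (bs br P P).comap J) ⊔ bs br (bs br P P) (bs br P P)

/-- `(P' ∩ J P') + P'' + J P''` -/
def ww (br : E →ₗ[ℝ] E →ₗ[ℝ] E) (J : E →ₗ[ℝ] E) (P : Submodule ℝ E) : Submodule ℝ E :=
  kk br J P ⊔ (kk br J P).map J

namespace HermLie

variable {br : E →ₗ[ℝ] E →ₗ[ℝ] E} {J : E →ₗ[ℝ] E} (h : HermLie br J) {P : Submodule ℝ E}

theorem ww_elim {v : E} (hv : v ∈ ww br J P) : ∃ n ∈ kk br J P, ∃ n' ∈ kk br J P, v = n + J n' := by
  obtain ⟨n, hn, w, hw, rfl⟩ := Submodule.mem_sup.1 hv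
  obtain ⟨n', hn', rfl⟩ := Submodule.mem_map.1 hw
  exact ⟨n, hn, n', hn', rfl⟩

theorem ww_intro {n n' : E} (hn : n ∈ kk br J P) (hn' : n' ∈ kk br J P) :
    n + J n' ∈ ww br J P :=
  Submodule.add_mem _ (Submodule.mem_sup_left hn)
    (Submodule.mem_sup_right (Submodule.mem_map_of_mem hn'))

theorem kk_le_ww : kk br J P ≤ ww br J P := le_sup_left

theorem N2_le_kk : bs br (bs br P P) (bs br P P) ≤ kk br J P := le_sup_right

theorem mm_le_kk : bs br P P ⊓ (bs br P P).comap J ≤ kk br J P := le_sup_left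

theorem kk_elim {v : E} (hv : v ∈ kk br J P) :
    ∃ w, w ∈ bs br P P ∧ J w ∈ bs br P P ∧ ∃ n ∈ bs br (bs br P P) (bs br P P), v = w + n := by
  obtain ⟨w, hw, n, hn, rfl⟩ := Submodule.mem_sup.1 hv
  exact ⟨w, hw.1, hw.2, n, hn, rfl⟩

section
variable (hP : JSub br J P)
include hP

theorem kk_le_N1 : kk br J P ≤ bs br P P := by
  refine sup_le inf_le_left ?_
  exact bs_le fun a ha b hb => bs_mem (bs_le_of hP ha) (bs_le_of hP hb)

include h

theorem ww_J {v : E} (hv : v ∈ ww br J P) : J v ∈ ww br J P := by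
  obtain ⟨n, hn, n', hn', rfl⟩ := ww_elim hv
  rw [map_add, h.JJ, add_comm]
  exact ww_intro (Submodule.neg_mem _ hn') hn

omit h in
theorem N2_ideal {x n : E} (h' : HermLie br J) (hx : x ∈ P)
    (hn : n ∈ bs br (bs br P P) (bs br P P)) : br x n ∈ bs br (bs br P P) (bs br P P) := by
  refine Submodule.span_induction
    (p := fun n _ => br x n ∈ bs br (bs br P P) (bs br P P)) ?_ ?_ ?_ ?_ hn
  · rintro _ ⟨a, ha, b, hb, rfl⟩
    rw [h'.jacobi]
    exact Submodule.add_mem _ (bs_mem (bs_mem hx (bs_le_of hP ha)) hb)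
      (bs_mem ha (bs_mem hx (bs_le_of hP hb)))
  · rw [map_zero]; exact Submodule.zero_mem _
  · intro a b _ _ ha hb; rw [map_add]; exact Submodule.add_mem _ ha hb
  · intro c a _ ha; rw [map_smul]; exact Submodule.smul_mem _ _ ha

/-- `[J x, y] + [x, J y]` lies in `P' ∩ J P'` -/
theorem kmix {x y : E} (hx : x ∈ P) (hy : y ∈ P) :
    br (J x) y + br x (J y) ∈ bs br P P ⊓ (bs br P P).comap J := by
  refine ⟨Submodule.add_mem _ (bs_mem (hP.cJ _ hx) hy) (bs_mem hx (hP.cJ _ hy)), ?_⟩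
  show J (br (J x) y + br x (J y)) ∈ bs br P P
  rw [h.integ']
  exact Submodule.sub_mem _ (bs_mem (hP.cJ _ hx) (hP.cJ _ hy)) (bs_mem hx hy)

theorem kmix2 {x y : E} (hx : x ∈ P) (hy : y ∈ P) :
    br (J x) (J y) - br x y ∈ bs br P P ⊓ (bs br P P).comap J := by
  refine ⟨Submodule.sub_mem _ (bs_mem (hP.cJ _ hx) (hP.cJ _ hy)) (bs_mem hx hy), ?_⟩
  show J (br (J x) (J y) - br x y) ∈ bs br P P
  rw [← h.integ', h.JJ]
  exact Submodule.neg_mem _ (Submodule.add_mem _ (bs_mem (hP.cJ _ hx) hy)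
    (bs_mem hx (hP.cJ _ hy)))

/-- commutativity modulo `K` -/
theorem kcomm {x y : E} (hx : x ∈ bs br P P) (hy : y ∈ bs br P P) :
    br (J x) y - br (J y) x ∈ kk br J P := by
  have h1 := h.kmix hP (bs_le_of hP hx) (bs_le_of hP hy)
  rw [h.skew x (J y), ← sub_eq_add_neg] at h1
  exact mm_le_kk h1

theorem kJJ {x y : E} (hx : x ∈ bs br P P) (hy : y ∈ bs br P P) :
    br (J x) (J y) ∈ kk br J P := by
  have h1 := mm_le_kk (h.kmix2 hP (bs_le_of hP hx) (bs_le_of hP hy))
  have h2 : br x y ∈ kk br J P := N2_le_kk (bs_mem hx hy)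
  have h3 := Submodule.add_mem _ h1 h2
  rwa [sub_add_cancel] at h3

theorem kJn_k {x k : E} (hx : x ∈ bs br P P) (hk : k ∈ kk br J P) : br (J x) k ∈ kk br J P := by
  obtain ⟨w, hw, hJw, n, hn, rfl⟩ := kk_elim hk
  rw [map_add]
  refine Submodule.add_mem _ ?_ (N2_le_kk (N2_ideal hP h (hP.cJ _ (bs_le_of hP hx)) hn))
  have h1 := mm_le_kk (h.kmix hP (bs_le_of hP hx) (bs_le_of hP hw))
  have h2 : br x (J w) ∈ kk br J P := N2_le_kk (bs_mem hx hJw)
  have h3 := Submodule.sub_mem _ h1 h2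
  rwa [add_sub_cancel_right] at h3

theorem kJk_n {x k : E} (hx : x ∈ bs br P P) (hk : k ∈ kk br J P) : br (J k) x ∈ kk br J P := by
  have h1 := h.kcomm hP (kk_le_N1 hP hk) hx
  have h2 := Submodule.add_mem _ h1 (h.kJn_k hP hx hk)
  rwa [sub_add_cancel] at h2

theorem kn_k {x k : E} (hx : x ∈ bs br P P) (hk : k ∈ bs br P P) : br x k ∈ kk br J P :=
  N2_le_kk (bs_mem hx hk)

/-- brackets of `P` are brackets `[J x, y]` modulo `K` -/
theorem kspan (hjd : P ≤ jd br J P) :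
    bs br P P ≤ Submodule.span ℝ {v | ∃ x ∈ bs br P P, ∃ y ∈ bs br P P, v = br (J x) y} ⊔
      kk br J P := by
  refine bs_le fun u hu v hv => ?_
  obtain ⟨a, ha, a', ha', rfl⟩ := jd_elim (hjd hu)
  obtain ⟨b, hb, b', hb', rfl⟩ := jd_elim (hjd hv)
  have e1 : br (a + J a') (b + J b') = (br (J a') b - br (J b') a) +
      (br a b + br (J a') (J b')) := by
    rw [map_add, map_add, LinearMap.add_apply, LinearMap.add_apply, h.skew a (J b')]
    abel
  rw [e1]
  refine Submodule.add_mem _ (Submodule.mem_sup_left (Submodule.sub_mem _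
    (Submodule.subset_span ⟨a', ha', b, hb, rfl⟩) (Submodule.subset_span ⟨b', hb', a, ha, rfl⟩)))
    (Submodule.mem_sup_right (Submodule.add_mem _ (N2_le_kk (bs_mem ha hb)) (h.kJJ hP ha' hb')))

/-- a unit modulo `K` -/
theorem kunit (hjd : P ≤ jd br J P) :
    ∃ e ∈ bs br P P, ∀ n ∈ bs br P P, br (J e) n - n ∈ kk br J P := by
  let U : Submodule ℝ E := bs br P P ⊓ (kk br J P)ᗮ
  have hKU : ∀ k ∈ kk br J P, pr U k = 0 := by
    intro k hk
    apply pr_eq_zero
    rw [Submodule.mem_orthogonal]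
    intro a ha
    exact Submodule.inner_left_of_mem_orthogonal hk ha.2
  have hdec : ∀ v ∈ bs br P P, v - pr U v ∈ kk br J P := by
    intro v hv
    have h1 : v - pr (kk br J P) v ∈ U :=
      ⟨Submodule.sub_mem _ hv (kk_le_N1 hP (pr_mem _ _)), sub_pr_mem _ _⟩
    have h2 : pr U v = v - pr (kk br J P) v := by
      have h3 : pr U (v - pr (kk br J P) v) = v - pr (kk br J P) v := pr_eq_self h1
      rw [map_sub, hKU _ (pr_mem _ _), sub_zero] at h3
      exact h3
    rw [h2, sub_sub_cancel]; exact pr_mem _ _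
  have hU1 : ∀ u : U, (u : E) ∈ bs br P P := fun u => u.2.1
  let L : U →ₗ[ℝ] U →ₗ[ℝ] U := LinearMap.mk₂ ℝ
    (fun x y => (⟨pr U (br (J x) y), pr_mem _ _⟩ : U))
    (fun x x' y => Subtype.ext (by simp only [Submodule.coe_add, map_add, LinearMap.add_apply]))
    (fun c x y => Subtype.ext (by simp only [Submodule.coe_smul, map_smul, LinearMap.smul_apply]))
    (fun x y y' => Subtype.ext (by simp only [Submodule.coe_add, map_add]))
    (fun c x y => Subtype.ext (by simp only [Submodule.coe_smul, map_smul]))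
  have hL : ∀ x y : U, ((L x y : U) : E) = pr U (br (J x) y) := fun x y => rfl
  have hbrm : ∀ x y : U, br (J x) (y : E) ∈ bs br P P := fun x y =>
    bs_mem (hP.cJ _ (bs_le_of hP (hU1 x))) (bs_le_of hP (hU1 y))
  -- well-definedness
  have hw1 : ∀ v ∈ bs br P P, ∀ z ∈ bs br P P,
      pr U (br (J (pr U v)) z) = pr U (br (J v) z) := by
    intro v hv z hz
    have h1 := h.kJk_n hP hz (hdec v hv)
    have h2 := hKU _ h1
    rw [map_sub, map_sub, LinearMap.sub_apply, map_sub, sub_eq_zero] at h2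
    exact h2.symm
  have hw2 : ∀ v ∈ bs br P P, ∀ z ∈ bs br P P,
      pr U (br (J z) (pr U v)) = pr U (br (J z) v) := by
    intro v hv z hz
    have h1 := h.kJn_k hP hz (hdec v hv)
    have h2 := hKU _ h1
    rw [map_sub, map_sub, sub_eq_zero] at h2
    exact h2.symm
  have hc : ∀ x y, L x y = L y x := by
    intro x y
    apply Subtype.ext
    rw [hL, hL, ← sub_eq_zero, ← map_sub]
    exact hKU _ (h.kcomm hP (hU1 x) (hU1 y))
  have hLL : ∀ x y z, L x (L y z) = L y (L x z) := by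
    intro x y z
    apply Subtype.ext
    rw [hL, hL, hL, hL, hw2 _ (hbrm y z) _ (hU1 x), hw2 _ (hbrm x z) _ (hU1 y), ← sub_eq_zero,
      ← map_sub]
    apply hKU
    have h1 := h.jacobi (J x) (J y) (z : E)
    have h2 : br (J x) (br (J y) (z : E)) - br (J y) (br (J x) (z : E)) =
        br (br (J x) (J y)) (z : E) := by rw [h1]; abel
    rw [h2]
    exact h.kn_k hP (kk_le_N1 hP (h.kJJ hP (hU1 x) (hU1 y))) (hU1 z)
  have ha : ∀ x y z, L (L x y) z = L x (L y z) := by
    intro x y z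
    rw [hc (L x y) z, hLL z x y, hc z y]
  have hs : Submodule.span ℝ {v | ∃ x y, v = L x y} = ⊤ := by
    rw [eq_top_iff]
    intro v _
    have h1 := h.kspan hP hjd (hU1 v)
    obtain ⟨s, hs, k, hk, hsk⟩ := Submodule.mem_sup.1 h1
    have h2 : ∀ s ∈ Submodule.span ℝ {v | ∃ x ∈ bs br P P, ∃ y ∈ bs br P P, v = br (J x) y},
        (⟨pr U s, pr_mem _ _⟩ : U) ∈ Submodule.span ℝ {v | ∃ x y, v = L x y} := by
      intro s hs
      refine Submodule.span_induction (p := fun s _ => (⟨pr U s, pr_mem _ _⟩ : U) ∈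
        Submodule.span ℝ {v | ∃ x y, v = L x y}) ?_ ?_ ?_ ?_ hs
      · rintro _ ⟨x, hx, y, hy, rfl⟩
        refine Submodule.subset_span ⟨⟨pr U x, pr_mem _ _⟩, ⟨pr U y, pr_mem _ _⟩, ?_⟩
        apply Subtype.ext
        rw [hL]
        show pr U (br (J x) y) = pr U (br (J (pr U x)) (pr U y))
        rw [hw1 x hx _ (pr_mem U y).1, hw2 y hy x hx]
      · have : (⟨pr U 0, pr_mem _ _⟩ : U) = 0 := Subtype.ext (map_zero _)
        rw [this]; exact Submodule.zero_mem _
      · intro x y _ _ hx hy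
        have : (⟨pr U (x + y), pr_mem _ _⟩ : U) = ⟨pr U x, pr_mem _ _⟩ + ⟨pr U y, pr_mem _ _⟩ :=
          Subtype.ext (map_add _ _ _)
        rw [this]; exact Submodule.add_mem _ hx hy
      · intro c x _ hx
        have : (⟨pr U (c • x), pr_mem _ _⟩ : U) = c • ⟨pr U x, pr_mem _ _⟩ :=
          Subtype.ext (map_smul _ _ _)
        rw [this]; exact Submodule.smul_mem _ _ hx
    have h3 : v = ⟨pr U s, pr_mem _ _⟩ := by
      apply Subtype.ext
      show (v : E) = pr U s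
      have h4 : pr U (v : E) = v := pr_eq_self v.2
      rw [← h4, ← hsk, map_add, hKU k hk, add_zero]
    rw [h3]
    exact h2 s hs
  obtain ⟨e, he⟩ := exists_unit L hc ha hs
  refine ⟨e, hU1 e, fun n hn => ?_⟩
  have h1 : pr U (br (J e) n - n) = 0 := by
    have h2 := congrArg Subtype.val (he ⟨pr U n, pr_mem _ _⟩)
    rw [hL] at h2
    have h3 : pr U (br (J (e : E)) (pr U n)) = pr U n := h2
    rw [hw2 n hn _ (hU1 e)] at h3
    rw [map_sub, h3, sub_self]
  have h2 := hdec (br (J e) n - n) (Submodule.sub_mem _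
    (bs_mem (hP.cJ _ (bs_le_of hP (hU1 e))) (bs_le_of hP hn)) hn)
  rwa [h1, sub_zero] at h2

/-- `A x` maps `W` to `W` -/
theorem Ac_P_ww (hjd : P ≤ jd br J P) {x w : E} (hx : x ∈ P) (hw : w ∈ ww br J P) :
    Ac br J x w ∈ ww br J P := by
  have hid : ∀ x ∈ P, ∀ k ∈ kk br J P, br x k ∈ kk br J P := by
    intro x hx k hk
    obtain ⟨n, hn, n', hn', rfl⟩ := jd_elim (hjd hx)
    rw [map_add, LinearMap.add_apply]
    exact Submodule.add_mem _ (h.kn_k hP hn (kk_le_N1 hP hk)) (h.kJn_k hP hn' hk)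
  have key : ∀ k ∈ kk br J P, Ac br J x k ∈ ww br J P := by
    intro k hk
    rw [Ac_apply]
    exact Submodule.smul_mem _ _ (ww_intro (hid x hx k hk) (hid _ (hP.cJ _ hx) k hk))
  obtain ⟨k, hk, k', hk', rfl⟩ := ww_elim hw
  rw [map_add, h.chern.A2]
  exact Submodule.add_mem _ (key k hk) (h.ww_J hP (key k' hk'))

theorem Ac_ww_P (hjd : P ≤ jd br J P) {x w : E} (hx : x ∈ P) (hw : w ∈ ww br J P) :
    Ac br J w x ∈ ww br J P := by
  obtain ⟨n, hn, n', hn', rfl⟩ := jd_elim (hjd hx)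
  have key0 : ∀ k ∈ kk br J P, ∀ n ∈ bs br P P, Ac br J k n ∈ ww br J P := by
    intro k hk n hn
    rw [Ac_apply]
    exact Submodule.smul_mem _ _ (ww_intro (h.kn_k hP (kk_le_N1 hP hk) hn)
      (h.kJk_n hP hn hk))
  have key : ∀ k ∈ kk br J P, Ac br J k (n + J n') ∈ ww br J P := by
    intro k hk
    rw [map_add, h.chern.A2]
    exact Submodule.add_mem _ (key0 k hk n hn) (h.ww_J hP (key0 k hk n' hn'))
  obtain ⟨k, hk, k', hk', rfl⟩ := ww_elim hw
  rw [map_add (Ac br J) k (J k'), LinearMap.add_apply, h.chern.A1]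
  exact Submodule.add_mem _ (key k hk) (Submodule.neg_mem _ (h.ww_J hP (key k' hk')))

theorem ww_le : ww br J P ≤ P := by
  intro w hw
  obtain ⟨k, hk, k', hk', rfl⟩ := ww_elim hw
  exact Submodule.add_mem _ (bs_le_of hP (kk_le_N1 hP hk))
    (hP.cJ _ (bs_le_of hP (kk_le_N1 hP hk')))

/-- a stationary term of the `J`-derived chain with `(P' ∩ J P') + P'' + J P'' ≠ P` gives negative
holomorphic sectional curvature -/
theorem unit_neg (hA0 : ∀ x ∈ P, ∀ y ∈ Pᗮ, Ac br J x y = 0) (hjd : P ≤ jd br J P)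
    (hW : ww br J P ≠ P) : ∃ x, Qf (Ac br J) x < 0 := by
  obtain ⟨e, he, hunit⟩ := h.kunit hP hjd
  have heP := bs_le_of hP he
  have hAe : ∀ y ∈ P, Ac br J e y - (1 / 2 : ℝ) • J y ∈ ww br J P := by
    have key : ∀ n ∈ bs br P P, Ac br J e n - (1 / 2 : ℝ) • J n ∈ ww br J P := by
      intro n hn
      have h1 : Ac br J e n - (1 / 2 : ℝ) • J n =
          (1 / 2 : ℝ) • (br e n + J (br (J e) n - n)) := by
        rw [Ac_apply, map_sub]
        module
      rw [h1]
      exact Submodule.smul_mem _ _ (ww_intro (h.kn_k hP he hn) (hunit n hn))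
    intro y hy
    obtain ⟨n, hn, n', hn', rfl⟩ := jd_elim (hjd hy)
    have h2 : Ac br J e (n + J n') - (1 / 2 : ℝ) • J (n + J n') =
        (Ac br J e n - (1 / 2 : ℝ) • J n) + J (Ac br J e n' - (1 / 2 : ℝ) • J n') := by
      rw [map_add, map_add, h.chern.A2, map_sub, map_smul]
      module
    rw [h2]
    exact Submodule.add_mem _ (key n hn) (h.ww_J hP (key n' hn'))
  set q := pr (ww br J P) e with hq
  have hqW : q ∈ ww br J P := pr_mem _ _
  set x := e - q with hx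
  have hxP : x ∈ P := Submodule.sub_mem _ heP (ww_le h hP hqW)
  have hxo : x ∈ (ww br J P)ᗮ := sub_pr_mem _ _
  have hAx : ∀ y ∈ P, Ac br J x y - (1 / 2 : ℝ) • J y ∈ ww br J P := by
    intro y hy
    have h1 : Ac br J x y - (1 / 2 : ℝ) • J y =
        (Ac br J e y - (1 / 2 : ℝ) • J y) - Ac br J q y := by
      rw [hx, map_sub, LinearMap.sub_apply]; abel
    rw [h1]
    exact Submodule.sub_mem _ (hAe y hy) (h.Ac_ww_P hP hjd hy hqW)
  have hx0 : x ≠ 0 := by
    intro h0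
    apply hW
    refine le_antisymm (ww_le h hP) ?_
    intro y hy
    have h1 := hAx (J y) (hP.cJ _ hy)
    rw [h0, map_zero, LinearMap.zero_apply, h.JJ, zero_sub, smul_neg, neg_neg] at h1
    have h2 := Submodule.smul_mem _ (2 : ℝ) h1
    rw [smul_smul] at h2
    norm_num at h2
    exact h2
  have hin : ∀ w ∈ ww br J P, ⟪x, w⟫_ℝ = 0 := fun w hw =>
    Submodule.inner_left_of_mem_orthogonal hw hxo
  have hJx : ⟪x, J x⟫_ℝ = 0 := by
    have := h.innerJ x x
    rw [real_inner_comm] at this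
    linarith
  -- the transpose
  have hAt : At (Ac br J) x x = -((1 / 2 : ℝ) • J x) := by
    have h1 : At (Ac br J) x x + (1 / 2 : ℝ) • J x ∈ P :=
      Submodule.add_mem _ (h.At_mem hA0 hxP x) (Submodule.smul_mem _ _ (hP.cJ _ hxP))
    have h2 : ∀ y ∈ P, ⟪At (Ac br J) x x + (1 / 2 : ℝ) • J x, y⟫_ℝ = 0 := by
      intro y hy
      have h3 := hin _ (hAx y hy)
      rw [inner_sub_right, inner_smul_right] at h3
      rw [inner_add_left, inner_At, inner_smul_left, h.innerJ]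
      simp only [conj_trivial]
      linarith
    have h4 := inner_self_eq_zero.1 (h2 _ h1)
    exact eq_neg_of_add_eq_zero_left h4
  set w := Ac br J x x - (1 / 2 : ℝ) • J x with hw
  have hwW : w ∈ ww br J P := hAx x hxP
  have hAxx : Ac br J x x = (1 / 2 : ℝ) • J x + w := by rw [hw]; abel
  have hAA : Ac br J (Ac br J x x) x = (1 / 4 : ℝ) • x + (-((1 / 2 : ℝ) • J w) + Ac br J w x) := by
    have h1 : Ac br J (Ac br J x x) x = -((1 / 2 : ℝ) • J (Ac br J x x)) + Ac br J w x := by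
      conv_lhs => rw [hAxx]
      rw [map_add, LinearMap.add_apply, map_smul, LinearMap.smul_apply, h.chern.A1, smul_neg]
    rw [h1, hAxx, map_add, map_smul, h.JJ]
    module
  have hrest : -((1 / 2 : ℝ) • J w) + Ac br J w x ∈ ww br J P :=
    Submodule.add_mem _ (Submodule.neg_mem _ (Submodule.smul_mem _ _ (h.ww_J hP hwW)))
      (h.Ac_ww_P hP hjd hxP hwW)
  have e1 : ⟪Ac br J (Ac br J x x) x, x⟫_ℝ = (1 / 4 : ℝ) * ‖x‖ ^ 2 := by
    rw [hAA, inner_add_left, inner_smul_left, real_inner_self_eq_norm_sq,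
      real_inner_comm x (-((1 / 2 : ℝ) • J w) + Ac br J w x)]
    have := hin _ hrest
    simp only [conj_trivial]
    rw [this]; ring
  have e2 : ‖At (Ac br J) x x‖ ^ 2 = (1 / 4 : ℝ) * ‖x‖ ^ 2 := by
    rw [hAt, norm_neg, norm_smul, h.chern.normJ]
    norm_num
    ring
  have e3 : ‖Ac br J x x‖ ^ 2 = (1 / 4 : ℝ) * ‖x‖ ^ 2 + ‖w‖ ^ 2 := by
    have h1 : ⟪(1 / 2 : ℝ) • J x, w⟫_ℝ = 0 := by
      rw [inner_smul_left, h.innerJ, hin _ (h.ww_J hP hwW)]
      simp
    have h2 := norm_add_sq_real ((1 / 2 : ℝ) • J x) w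
    rw [h1, norm_smul, h.chern.normJ] at h2
    rw [hAxx, h2]
    norm_num
    ring
  refine ⟨x, ?_⟩
  unfold Qf
  rw [e1, e2, e3]
  have hpos : 0 < ‖x‖ ^ 2 := by positivity
  have hw2 : 0 ≤ ‖w‖ ^ 2 := by positivity
  linarith

end

end HermLie

end Pool.Agent.Lib.MP_a150d7_gt
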