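import Pool.Agent.Lib.MP_a150d7_gt.SDown

/-!
The second half of the descent: from `P' + J P'` back to `P`.
-/

set_option linter.unusedSectionVars false

open Module
open scoped InnerProductSpace

namespace Pool.Agent.Lib.MP_a150d7_gt

variable {E : Type*} [NormedAddCommGroup E] [InnerProductSpace ℝ E] [FiniteDimensional ℝ E]

theorem normal_of_norm (T : E →ₗ[ℝ] E) (hT : ∀ v, ‖LinearMap.adjoint T v‖ = ‖T v‖) (v : E) :
    T (LinearMap.adjoint T v) = LinearMap.adjoint T (T v) := by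
  have h1 : ∀ v w, ⟪LinearMap.adjoint T v, LinearMap.adjoint T w⟫_ℝ = ⟪T v, T w⟫_ℝ := by
    intro v w
    have e4 := norm_add_sq_real (LinearMap.adjoint T v) (LinearMap.adjoint T w)
    have e5 := norm_add_sq_real (T v) (T w)
    rw [← map_add, hT (v + w), hT v, hT w] at e4
    rw [← map_add] at e5
    linarith
  refine ext_inner_right ℝ fun w => ?_
  rw [LinearMap.adjoint_inner_left, ← LinearMap.adjoint_inner_right, h1]

theorem adjoint_inv (T : E →ₗ[ℝ] E) (hT : ∀ v, ‖LinearMap.adjoint T v‖ = ‖T v‖)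
    {Z : Submodule ℝ E} (hZ : ∀ z ∈ Z, T z ∈ Z) {z : E} (hz : z ∈ Z) :
    LinearMap.adjoint T z ∈ Z := by
  let o := stdOrthonormalBasis ℝ Z
  have hcmp := hs_compare Z o T hZ (fun i => LinearMap.adjoint T (o i))
    (by intro i j; rw [LinearMap.adjoint_inner_left])
  simp only [hT] at hcmp
  have h5 : ∑ i, ‖LinearMap.adjoint T (o i : E) - pr Z (LinearMap.adjoint T (o i))‖ ^ 2 = 0 := by
    linarith
  rw [Finset.sum_eq_zero_iff_of_nonneg (fun i _ => by positivity)] at h5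
  have h6 : ∀ i, LinearMap.adjoint T (o i : E) ∈ Z := by
    intro i
    have h7 := norm_eq_zero.1 (pow_eq_zero_iff (two_ne_zero)|>.1 (h5 i (Finset.mem_univ i)))
    rw [sub_eq_zero.1 h7]
    exact pr_mem _ _
  have h8 : z = ∑ i, (o.repr ⟨z, hz⟩ i) • (o i : E) := coe_sum_repr o hz
  rw [h8, map_sum]
  refine Submodule.sum_mem _ fun i _ => ?_
  rw [map_smul]
  exact Submodule.smul_mem _ _ (h6 i)

theorem perp_inv (T : E →ₗ[ℝ] E) (hT : ∀ v, ‖LinearMap.adjoint T v‖ = ‖T v‖)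
    {Z : Submodule ℝ E} (hZ : ∀ z ∈ Z, T z ∈ Z) {z : E} (hz : z ∈ Zᗮ) : T z ∈ Zᗮ := by
  rw [Submodule.mem_orthogonal']
  intro v hv
  rw [← LinearMap.adjoint_inner_right]
  exact Submodule.inner_left_of_mem_orthogonal (adjoint_inv T hT hZ hv) hz

theorem eq_zero_of_trace (T : E →ₗ[ℝ] E)
    (h0 : LinearMap.trace ℝ E (T ∘ₗ LinearMap.adjoint T) = 0) : LinearMap.adjoint T = 0 := by
  let o := stdOrthonormalBasis ℝ E
  rw [LinearMap.trace_eq_sum_inner _ o] at h0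
  have h1 : ∀ i, ⟪o i, (T ∘ₗ LinearMap.adjoint T) (o i)⟫_ℝ = ‖LinearMap.adjoint T (o i)‖ ^ 2 := by
    intro i
    rw [LinearMap.comp_apply, ← LinearMap.adjoint_inner_left, real_inner_self_eq_norm_sq]
  rw [Finset.sum_congr rfl fun i _ => h1 i,
    Finset.sum_eq_zero_iff_of_nonneg (fun i _ => by positivity)] at h0
  refine o.toBasis.ext fun i => ?_
  have h2 := norm_eq_zero.1 (pow_eq_zero_iff (two_ne_zero)|>.1 (h0 i (Finset.mem_univ i)))
  rw [OrthonormalBasis.coe_toBasis, h2, LinearMap.zero_apply]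

/-- Fuglede's theorem in finite dimension. -/
theorem fuglede (T N : E →ₗ[ℝ] E)
    (hN : N ∘ₗ LinearMap.adjoint N = LinearMap.adjoint N ∘ₗ N) (hc : T ∘ₗ N = N ∘ₗ T) :
    T ∘ₗ LinearMap.adjoint N = LinearMap.adjoint N ∘ₗ T := by
  set N' := LinearMap.adjoint N with hN'
  have hadj : LinearMap.adjoint N' = N := LinearMap.adjoint_adjoint N
  set X := LinearMap.adjoint (T ∘ₗ N' - N' ∘ₗ T) with hX
  have hX1 : LinearMap.adjoint X = T ∘ₗ N' - N' ∘ₗ T := by rw [hX, LinearMap.adjoint_adjoint]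
  have hX2 : X = N ∘ₗ LinearMap.adjoint T - LinearMap.adjoint T ∘ₗ N := by
    rw [hX, map_sub, LinearMap.adjoint_comp, LinearMap.adjoint_comp, hadj]
  have h1 : LinearMap.adjoint X = 0 := by
    apply eq_zero_of_trace
    rw [hX1, hX2]
    set S := LinearMap.adjoint T
    have e : (N ∘ₗ S - S ∘ₗ N) ∘ₗ (T ∘ₗ N' - N' ∘ₗ T) =
        (N ∘ₗ S) ∘ₗ (T ∘ₗ N') - (N ∘ₗ S) ∘ₗ (N' ∘ₗ T) - (S ∘ₗ N) ∘ₗ (T ∘ₗ N') +
          (S ∘ₗ N) ∘ₗ (N' ∘ₗ T) := by
      rw [LinearMap.sub_comp, LinearMap.comp_sub, LinearMap.comp_sub]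
      abel
    rw [e, map_add, map_sub, map_sub]
    -- compare with the commutator of `T` and `N`
    have f1 : LinearMap.trace ℝ E ((N ∘ₗ S) ∘ₗ (T ∘ₗ N')) =
        LinearMap.trace ℝ E ((S ∘ₗ T) ∘ₗ (N' ∘ₗ N)) := by
      have : (N ∘ₗ S) ∘ₗ (T ∘ₗ N') = N ∘ₗ ((S ∘ₗ T) ∘ₗ N') := rfl
      rw [this, LinearMap.trace_comp_comm']
      rfl
    have f2 : LinearMap.trace ℝ E ((N ∘ₗ S) ∘ₗ (N' ∘ₗ T)) =
        LinearMap.trace ℝ E (S ∘ₗ (N' ∘ₗ (N ∘ₗ T))) := by
      have : (N ∘ₗ S) ∘ₗ (N' ∘ₗ T) = N ∘ₗ (S ∘ₗ N' ∘ₗ T) := rfl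
      rw [this, LinearMap.trace_comp_comm']
      have : (S ∘ₗ N' ∘ₗ T) ∘ₗ N = S ∘ₗ (N' ∘ₗ (T ∘ₗ N)) := rfl
      rw [this, hc]
    have f3 : LinearMap.trace ℝ E ((S ∘ₗ N) ∘ₗ (T ∘ₗ N')) =
        LinearMap.trace ℝ E (S ∘ₗ (N ∘ₗ (T ∘ₗ N'))) := rfl
    have f4 : LinearMap.trace ℝ E ((S ∘ₗ N) ∘ₗ (N' ∘ₗ T)) =
        LinearMap.trace ℝ E (S ∘ₗ (N ∘ₗ (N' ∘ₗ T))) := rfl
    have g1 : N ∘ₗ (T ∘ₗ N') = T ∘ₗ (N' ∘ₗ N) := by
      rw [← hN]
      calc N ∘ₗ (T ∘ₗ N') = (N ∘ₗ T) ∘ₗ N' := rfl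
        _ = (T ∘ₗ N) ∘ₗ N' := by rw [hc]
        _ = _ := rfl
    have g2 : N ∘ₗ (N' ∘ₗ T) = N' ∘ₗ (N ∘ₗ T) := by
      calc N ∘ₗ (N' ∘ₗ T) = (N ∘ₗ N') ∘ₗ T := rfl
        _ = (N' ∘ₗ N) ∘ₗ T := by rw [hN]
        _ = _ := rfl
    rw [f1, f2, f3, f4, g1, g2]
    have g3 : (S ∘ₗ T) ∘ₗ (N' ∘ₗ N) = S ∘ₗ (T ∘ₗ (N' ∘ₗ N)) := rfl
    rw [g3]; ring
  rw [hX1] at h1
  exact sub_eq_zero.1 h1

namespace HermLie

variable {br : E →ₗ[ℝ] E →ₗ[ℝ] E} {J : E →ₗ[ℝ] E} (h : HermLie br J) {P : Submodule ℝ E}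

include h

/-- the representation property of `A` -/
theorem rep (x y v : E) : Ac br J x (Ac br J y v) - Ac br J y (Ac br J x v) =
    (1 / 2 : ℝ) • Ac br J (br x y - br (J x) (J y)) v := by
  have hf : ∀ x y, Ac br J x (Ac br J y v) = (1 / 4 : ℝ) •
      (br x (br y v) + J (br (J x) (br y v)) + J (br x (br (J y) v)) -
        br (J x) (br (J y) v)) := by
    intro x y
    rw [Ac_apply br J y v, map_smul, map_add, h.chern.A2, Ac_apply, Ac_apply, map_smul, map_add,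
      h.JJ]
    module
  have hz : J (br x y - br (J x) (J y)) = br (J x) y + br x (J y) := by
    have h1 := h.integ' x y
    have h2 : br x y - br (J x) (J y) = -J (br (J x) y + br x (J y)) := by rw [h1]; abel
    rw [h2, map_neg, h.JJ, neg_neg]
  have j1 := h.jacobi x y v
  have j2 := h.jacobi (J x) y v
  have j3 := h.jacobi x (J y) v
  have j4 := h.jacobi (J x) (J y) v
  rw [hf x y, hf y x, Ac_apply, hz, j1, j2, j3, j4]
  simp only [map_add, map_sub, LinearMap.sub_apply, LinearMap.add_apply]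
  module

section A0
variable (hA0 : ∀ x ∈ P, ∀ y ∈ Pᗮ, Ac br J x y = 0)
  (hQn : ∀ x, 0 ≤ Qf (Ac br J) x)

include hA0 hQn

theorem u_comm (hP : JSub br J P) {b : E} (hbP : b ∈ P) (hb : b ∈ (jd br J P)ᗮ) {y : E}
    (hy : y ∈ P) : br b (J y) = J (br b y) := by
  have h1 := h.d_kill hA0 hQn hP hbP hb hy
  rw [Ac_apply] at h1
  have h2 := (smul_eq_zero.1 h1).resolve_left (by norm_num)
  have h3 := congrArg J h2
  rw [map_add, h.JJ, map_zero] at h3
  rw [h.skew b (J y), h.skew b y, map_neg]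
  have h4 : J (br y b) = br (J y) b := by
    rw [← sub_eq_zero, sub_eq_add_neg]; exact h3
  rw [h4]

/-- `A (A b x) = 0` if `A x = 0` -/
theorem u_pres (hP : JSub br J P) {b : E} (hbP : b ∈ P) (hb : b ∈ (jd br J P)ᗮ) {x : E}
    (hx : x ∈ P) (hx0 : ∀ v, Ac br J x v = 0) (v : E) : Ac br J (Ac br J b x) v = 0 := by
  have hJb := h.JSub_perp (h.jd_JSub hP) hb
  have key : ∀ y ∈ P, Ac br J (Ac br J b x) y = 0 := by
    intro y hy
    have hx1 : ∀ y, br (J x) y = J (br x y) := by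
      intro y
      have h1 := hx0 y
      rw [Ac_apply] at h1
      have h2 := (smul_eq_zero.1 h1).resolve_left (by norm_num)
      have h3 := congrArg J h2
      rw [map_add, h.JJ, map_zero, ← sub_eq_add_neg, sub_eq_zero] at h3
      exact h3.symm
    have c1 : ∀ y ∈ P, br b (J y) = J (br b y) := fun y hy => h.u_comm hA0 hQn hP hbP hb hy
    have c2 : ∀ y ∈ P, br (J b) (J y) = J (br (J b) y) := fun y hy =>
      h.u_comm hA0 hQn hP (hP.cJ _ hbP) hJb hy
    have e1 : Ac br J b x = (1 / 2 : ℝ) • (br b x + br (J b) (J x)) := by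
      rw [Ac_apply, c2 x hx]
    have e2 : J (Ac br J b x) = (1 / 2 : ℝ) • (br b (J x) - br (J b) x) := by
      rw [Ac_apply, map_smul, map_add, h.JJ, c1 x hx, sub_eq_add_neg]
    have hj : ∀ u v w, br (br u v) w = br u (br v w) - br v (br u w) := by
      intro u v w
      rw [h.jacobi u v w]; abel
    have f1 : br (br b x) y = br b (br x y) - br x (br b y) := hj _ _ _
    have f2 : br (br (J b) (J x)) y = J (br (J b) (br x y)) - J (br x (br (J b) y)) := by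
      rw [hj, hx1, hx1, c2 _ (hP.cbr _ hx _ hy)]
    have f3 : br (br b (J x)) y = J (br b (br x y)) - J (br x (br b y)) := by
      rw [hj, hx1, hx1, c1 _ (hP.cbr _ hx _ hy)]
    have f4 : br (br (J b) x) y = br (J b) (br x y) - br x (br (J b) y) := hj _ _ _
    rw [Ac_apply br J (Ac br J b x) y, e2, e1]
    simp only [map_smul, LinearMap.smul_apply, map_add, map_sub, LinearMap.add_apply,
      LinearMap.sub_apply, f1, f2, f3, f4, h.JJ]
    module
  rw [h.Ac_pr hA0 (h.Ac_mem hP hbP hx)]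
  exact key _ (pr_mem _ _)

end A0

section up
variable (hA0 : ∀ x ∈ P, ∀ y ∈ Pᗮ, Ac br J x y = 0)
  (hQn : ∀ x, 0 ≤ Qf (Ac br J) x)
  (hS1 : ∀ x ∈ jd br J P, ∀ y ∈ jd br J P, ∀ v, Ac br J (Ac br J x y) v = 0)
  (hS2 : ∀ x ∈ jd br J P, ∀ y ∈ jd br J P, ∀ v,
    Ac br J x (At (Ac br J) y v) = At (Ac br J) y (Ac br J x v))

theorem At_of_Ac {y : E} (hy : ∀ v, Ac br J y v = 0) (v : E) : At (Ac br J) y v = 0 := by
  refine ext_inner_right ℝ fun z => ?_
  rw [inner_At, hy, inner_zero_right, inner_zero_left]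

include hA0 hQn hS1

/-- `A (A x y) = 0` for `x` in `P' + J P'` and arbitrary `y` -/
theorem S1' (hP : JSub br J P) {x : E} (hx : x ∈ jd br J P) (y v : E) :
    Ac br J (Ac br J x y) v = 0 := by
  rw [h.Ac_pr (h.d_next hA0 hQn hP) hx]
  exact hS1 x hx _ (pr_mem _ _) v

/-- the quartic form on `P`, near `P' + J P'` -/
theorem up_Qeq (hP : JSub br J P)
    (hS2 : ∀ x ∈ jd br J P, ∀ y ∈ jd br J P, ∀ v,
      Ac br J x (At (Ac br J) y v) = At (Ac br J) y (Ac br J x v))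
    {x b : E} (hx : x ∈ jd br J P) (hbP : b ∈ P) (hb : b ∈ (jd br J P)ᗮ) :
    Qf (Ac br J) (x + b) = 2 * (⟪At (Ac br J) x x, At (Ac br J) b x⟫_ℝ -
      ⟪Ac br J x x, Ac br J b x⟫_ℝ - ⟪Ac br J (Ac br J b x) x, x⟫_ℝ) := by
  have hxP := jd_le hP hx
  have a1 : At (Ac br J) x b = 0 := h.At_jdperp hA0 hP hxP hb
  have a2 : At (Ac br J) b b = 0 := h.At_jdperp hA0 hP hbP hb
  have a3 : Ac br J x b = 0 := h.d_kill hA0 hQn hP hbP hb hxP
  have a4 : Ac br J b b = 0 := h.d_self hA0 hQn hP hbP hb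
  have a5 : ∀ v, Ac br J (Ac br J x x) v = 0 := h.S1' hA0 hQn hS1 hP hx x
  have a6 : Ac br J (Ac br J b x) b = 0 :=
    h.d_kill hA0 hQn hP hbP hb (h.Ac_mem hP hbP hxP)
  have a7 : ⟪Ac br J (Ac br J b x) x, b⟫_ℝ = 0 :=
    Submodule.inner_right_of_mem_orthogonal (h.Ac_mem_jd' hA0 hP (h.Ac_mem hP hbP hxP) x) hb
  have a8 : ‖At (Ac br J) b x‖ = ‖Ac br J b x‖ := h.d_norm hA0 hQn hP hbP hb x
  have a9 : ‖At (Ac br J) x x‖ ^ 2 = ‖Ac br J x x‖ ^ 2 := by
    rw [← real_inner_self_eq_norm_sq, ← real_inner_self_eq_norm_sq, inner_At, hS2 x hx x hx,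
      inner_At']
  unfold Qf
  simp only [At_add, map_add, LinearMap.add_apply, a1, a2, a3, a4, a5, a6, add_zero, zero_add,
    inner_add_left, inner_add_right, a7, inner_zero_left, map_zero, LinearMap.zero_apply]
  rw [norm_add_sq_real, norm_add_sq_real, a8, a9]
  ring

/-- the quartic form vanishes on `P` -/
theorem up_Q (hP : JSub br J P)
    (hS2 : ∀ x ∈ jd br J P, ∀ y ∈ jd br J P, ∀ v,
      Ac br J x (At (Ac br J) y v) = At (Ac br J) y (Ac br J x v)) :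
    ∀ x ∈ P, Qf (Ac br J) x = 0 := by
  intro x hx
  set x1 := pr (jd br J P) x with hx1
  have mx : x1 ∈ jd br J P := pr_mem _ _
  have bx : x - x1 ∈ P := Submodule.sub_mem _ hx (jd_le hP mx)
  have ox : x - x1 ∈ (jd br J P)ᗮ := sub_pr_mem _ _
  have e1 := h.up_Qeq hA0 hQn hS1 hP hS2 mx bx ox
  have e2 := h.up_Qeq hA0 hQn hS1 hP hS2 mx (Submodule.neg_mem _ bx) (Submodule.neg_mem _ ox)
  have e3 : At (Ac br J) (-(x - x1)) = -At (Ac br J) (x - x1) := by
    unfold At; rw [map_neg, map_neg]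
  rw [e3] at e2
  simp only [map_neg, LinearMap.neg_apply, inner_neg_left, inner_neg_right] at e2
  have n1 := hQn (x1 + (x - x1))
  have n2 := hQn (x1 + -(x - x1))
  rw [e1] at n1
  rw [e2] at n2
  have e4 : x = x1 + (x - x1) := by abel
  rw [e4, e1]
  linarith

variable (hQP : ∀ x ∈ P, Qf (Ac br J) x = 0)
include hQP

theorem up_F0 (hP : JSub br J P) {b : E} (hbP : b ∈ P) (hb : b ∈ (jd br J P)ᗮ) {x y : E}
    (hx : x ∈ jd br J P) (hy : y ∈ jd br J P) (hy0 : ∀ v, Ac br J y v = 0) :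
    ⟪At (Ac br J) x y, At (Ac br J) b x⟫_ℝ - ⟪Ac br J x x, Ac br J b y⟫_ℝ -
      ⟪Ac br J (Ac br J b x) x, y⟫_ℝ = 0 := by
  have hxP := jd_le hP hx
  have hyP := jd_le hP hy
  have q1 := h.chern.Q11_zero_on hP.cJ hQP hxP
    (Submodule.add_mem _ hyP hbP)
  have q2 := h.chern.Q11_zero_on hP.cJ hQP hxP hyP
  have q3 := h.chern.Q11_zero_on hP.cJ hQP hxP hbP
  unfold Q11 at q1 q2 q3
  have a1 : At (Ac br J) x b = 0 := h.At_jdperp hA0 hP hxP hb
  have a2 : ∀ v, At (Ac br J) y v = 0 := h.At_of_Ac hy0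
  have a3 : Ac br J x b = 0 := h.d_kill hA0 hQn hP hbP hb hxP
  have a4 : Ac br J b b = 0 := h.d_self hA0 hQn hP hbP hb
  have a5 : ∀ v, Ac br J (Ac br J x x) v = 0 := h.S1' hA0 hQn hS1 hP hx x
  have a6 : ∀ v, Ac br J (Ac br J x y) v = 0 := h.S1' hA0 hQn hS1 hP hx y
  have a7 : ∀ v, Ac br J (Ac br J b y) v = 0 := h.u_pres hA0 hQn hP hbP hb hyP hy0
  simp only [At_add, map_add, LinearMap.add_apply, a1, a2, a3, a4, a5, a6, a7, hy0, zero_add,
    add_zero, map_zero, LinearMap.zero_apply, inner_zero_left, inner_zero_right, norm_zero,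
    inner_add_right] at q1 q2 q3
  have q4 := norm_add_sq_real (At (Ac br J) x y) (At (Ac br J) b x)
  rw [q4] at q1
  linarith

theorem up_F (hP : JSub br J P) {b : E} (hbP : b ∈ P) (hb : b ∈ (jd br J P)ᗮ) {x x' y : E}
    (hx : x ∈ jd br J P) (hx' : x' ∈ jd br J P) (hy : y ∈ jd br J P)
    (hy0 : ∀ v, Ac br J y v = 0) :
    ⟪At (Ac br J) x y, At (Ac br J) b x'⟫_ℝ - ⟪Ac br J x x', Ac br J b y⟫_ℝ -
      ⟪Ac br J (Ac br J b x) x', y⟫_ℝ = 0 := by
  have f0 : ∀ b ∈ P, b ∈ (jd br J P)ᗮ → ∀ x ∈ jd br J P, _ := fun b h1 h2 x h3 =>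
    h.up_F0 hA0 hQn hS1 hQP hP h1 h2 h3 hy hy0
  have hJb := h.JSub_perp (h.jd_JSub hP) hb
  have hJbP := hP.cJ _ hbP
  -- skew-symmetry
  have f1 : ∀ b ∈ P, b ∈ (jd br J P)ᗮ → ∀ x ∈ jd br J P, ∀ x' ∈ jd br J P,
      (⟪At (Ac br J) x y, At (Ac br J) b x'⟫_ℝ - ⟪Ac br J x x', Ac br J b y⟫_ℝ -
      ⟪Ac br J (Ac br J b x) x', y⟫_ℝ) +
      (⟪At (Ac br J) x' y, At (Ac br J) b x⟫_ℝ - ⟪Ac br J x' x, Ac br J b y⟫_ℝ -
      ⟪Ac br J (Ac br J b x') x, y⟫_ℝ) = 0 := by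
    intro b h1 h2 x h3 x' h4
    have e1 := f0 b h1 h2 (x + x') (Submodule.add_mem _ h3 h4)
    have e2 := f0 b h1 h2 x h3
    have e3 := f0 b h1 h2 x' h4
    simp only [At_add, map_add, LinearMap.add_apply, inner_add_left, inner_add_right] at e1
    linarith
  have g1 := f1 b hbP hb x hx x' hx'
  -- replace b by J b
  have g2 := f1 (J b) hJbP hJb x hx (J x') (h.jd_J hx')
  simp only [h.chern.A1, h.chern.A2, h.chern.At1, h.chern.At2, map_neg, LinearMap.neg_apply,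
    inner_neg_left, inner_neg_right, h.isoJ, h.JJ, neg_neg] at g2
  linarith

/-- the kernel `Z` of `A` in `P' + J P'` -/
theorem up_C (hP : JSub br J P) {b : E} (hbP : b ∈ P) (hb : b ∈ (jd br J P)ᗮ) {x : E}
    (hx : x ∈ jd br J P) (v : E) :
    Ac br J b (At (Ac br J) x v) = At (Ac br J) x (Ac br J b v) +
      At (Ac br J) (Ac br J b x) v := by
  have hxP := jd_le hP hx
  have hbx : Ac br J b x ∈ jd br J P := h.Ac_mem_jd' hA0 hP hbP x
  let Z : Submodule ℝ E := jd br J P ⊓ LinearMap.ker (Ac br J)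
  have hZ : ∀ {z : E}, z ∈ Z ↔ z ∈ jd br J P ∧ ∀ v, Ac br J z v = 0 := by
    intro z
    refine ⟨fun hz => ⟨hz.1, fun v => ?_⟩, fun hz => ⟨hz.1, ?_⟩⟩
    · have h1 : Ac br J z = 0 := LinearMap.mem_ker.1 hz.2
      rw [h1, LinearMap.zero_apply]
    · apply LinearMap.mem_ker.2
      ext v; exact hz.2 v
  have hAZ : ∀ x ∈ jd br J P, ∀ y, Ac br J x y ∈ Z := fun x hx y =>
    hZ.2 ⟨h.Ac_mem_jd' hA0 hP (jd_le hP hx) y, h.S1' hA0 hQn hS1 hP hx y⟩
  have hAt0 : ∀ x ∈ jd br J P, ∀ v ∈ Zᗮ, At (Ac br J) x v = 0 := by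
    intro x hx v hv
    refine ext_inner_right ℝ fun z => ?_
    rw [inner_At, inner_zero_left]
    exact Submodule.inner_left_of_mem_orthogonal (hAZ x hx z) hv
  have hbZ : ∀ z ∈ Z, Ac br J b z ∈ Z := by
    intro z hz
    have hz' := hZ.1 hz
    exact hZ.2 ⟨h.Ac_mem_jd' hA0 hP hbP z,
      h.u_pres hA0 hQn hP hbP hb (jd_le hP hz'.1) hz'.2⟩
  have key1 : ∀ y ∈ Z, Ac br J b (At (Ac br J) x y) = At (Ac br J) x (Ac br J b y) +
      At (Ac br J) (Ac br J b x) y := by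
    intro y hy
    have hy' := hZ.1 hy
    have hA1 := h.d_next hA0 hQn hP
    have hm : Ac br J b (At (Ac br J) x y) - (At (Ac br J) x (Ac br J b y) +
        At (Ac br J) (Ac br J b x) y) ∈ jd br J P :=
      Submodule.sub_mem _ (h.Ac_mem_jd' hA0 hP hbP _)
        (Submodule.add_mem _ (h.At_mem hA1 hx _) (h.At_mem hA1 hbx _))
    have hi : ∀ x' ∈ jd br J P, ⟪Ac br J b (At (Ac br J) x y) - (At (Ac br J) x (Ac br J b y) +
        At (Ac br J) (Ac br J b x) y), x'⟫_ℝ = 0 := by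
      intro x' hx'
      have f := h.up_F hA0 hQn hS1 hQP hP hbP hb hx hx' hy'.1 hy'.2
      rw [inner_sub_left, inner_add_left, inner_At, inner_At, ← inner_At']
      rw [real_inner_comm (Ac br J b y) (Ac br J x x'),
        real_inner_comm y (Ac br J (Ac br J b x) x')] at f
      linarith
    exact sub_eq_zero.1 (inner_self_eq_zero.1 (hi _ hm))
  have key2 : ∀ v ∈ Zᗮ, Ac br J b (At (Ac br J) x v) = At (Ac br J) x (Ac br J b v) +
      At (Ac br J) (Ac br J b x) v := by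
    intro v hv
    have hbv : Ac br J b v ∈ Zᗮ := perp_inv (Ac br J b) (h.d_norm hA0 hQn hP hbP hb) hbZ hv
    rw [hAt0 x hx v hv, hAt0 x hx _ hbv, hAt0 _ hbx v hv, map_zero, add_zero]
  have k1 := key1 (pr Z v) (pr_mem _ _)
  have k2 := key2 (v - pr Z v) (sub_pr_mem _ _)
  simp only [map_sub] at k2
  rw [k1, sub_eq_iff_eq_add] at k2
  rw [k2]
  abel

omit hQP in
theorem up_kill (hP : JSub br J P)
    (hS2 : ∀ x ∈ jd br J P, ∀ y ∈ jd br J P, ∀ v,
      Ac br J x (At (Ac br J) y v) = At (Ac br J) y (Ac br J x v))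
    {b : E} (hbP : b ∈ P) (hb : b ∈ (jd br J P)ᗮ) {x : E}
    (hx : x ∈ jd br J P) (v : E) : Ac br J (Ac br J b x) v = 0 := by
  have hbx : Ac br J b x ∈ jd br J P := h.Ac_mem_jd' hA0 hP hbP x
  set y := Ac br J b x with hy
  have hC : At (Ac br J) y = Ac br J b ∘ₗ At (Ac br J) x - At (Ac br J) x ∘ₗ Ac br J b := by
    ext v
    have := h.up_C hA0 hQn hS1 (h.up_Q hA0 hQn hS1 hP hS2) hP hbP hb hx v
    simp only [LinearMap.sub_apply, LinearMap.comp_apply]
    rw [this, ← hy]; abel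
  have h1 : LinearMap.trace ℝ E (Ac br J y ∘ₗ LinearMap.adjoint (Ac br J y)) = 0 := by
    have h2 : LinearMap.adjoint (Ac br J y) = At (Ac br J) y := rfl
    rw [h2, hC, LinearMap.comp_sub, map_sub]
    have e1 : LinearMap.trace ℝ E (Ac br J y ∘ₗ (Ac br J b ∘ₗ At (Ac br J) x)) =
        LinearMap.trace ℝ E (Ac br J b ∘ₗ (At (Ac br J) x ∘ₗ Ac br J y)) := by
      rw [LinearMap.trace_comp_comm']
      rfl
    have e2 : LinearMap.trace ℝ E (Ac br J y ∘ₗ (At (Ac br J) x ∘ₗ Ac br J b)) =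
        LinearMap.trace ℝ E (Ac br J b ∘ₗ (At (Ac br J) x ∘ₗ Ac br J y)) := by
      have e3 : Ac br J y ∘ₗ (At (Ac br J) x ∘ₗ Ac br J b) =
          (Ac br J y ∘ₗ At (Ac br J) x) ∘ₗ Ac br J b := rfl
      have e4 : Ac br J y ∘ₗ At (Ac br J) x = At (Ac br J) x ∘ₗ Ac br J y := by
        ext v; exact hS2 y hbx x hx v
      rw [e3, e4, LinearMap.trace_comp_comm']
    rw [e1, e2, sub_self]
  have h3 := eq_zero_of_trace _ h1
  refine ext_inner_right ℝ fun z => ?_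
  rw [← inner_At']
  have h4 : At (Ac br J) y = 0 := h3
  rw [h4, LinearMap.zero_apply, inner_zero_right, inner_zero_left]

omit hQP in
/-- (S1) passes upwards -/
theorem up_S1 (hP : JSub br J P)
    (hS2 : ∀ x ∈ jd br J P, ∀ y ∈ jd br J P, ∀ v,
      Ac br J x (At (Ac br J) y v) = At (Ac br J) y (Ac br J x v)) :
    ∀ x ∈ P, ∀ y ∈ P, ∀ v, Ac br J (Ac br J x y) v = 0 := by
  intro x hx y hy v
  set x1 := pr (jd br J P) x with hx1
  set y1 := pr (jd br J P) y with hy1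
  have mx : x1 ∈ jd br J P := pr_mem _ _
  have my : y1 ∈ jd br J P := pr_mem _ _
  have bx : x - x1 ∈ P := Submodule.sub_mem _ hx (jd_le hP mx)
  have by' : y - y1 ∈ P := Submodule.sub_mem _ hy (jd_le hP my)
  have ox : x - x1 ∈ (jd br J P)ᗮ := sub_pr_mem _ _
  have oy : y - y1 ∈ (jd br J P)ᗮ := sub_pr_mem _ _
  have e1 : Ac br J x (y - y1) = 0 := h.d_kill hA0 hQn hP by' oy hx
  have e2 : Ac br J x y = Ac br J x1 y1 + Ac br J (x - x1) y1 := by
    rw [map_sub, sub_eq_zero] at e1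
    rw [e1, map_sub, LinearMap.sub_apply]
    abel
  rw [e2, map_add, LinearMap.add_apply, hS1 x1 mx y1 my v,
    h.up_kill hA0 hQn hS1 hP hS2 bx ox my v, add_zero]

omit hQP in
/-- (S2) passes upwards -/
theorem up_S2 (hP : JSub br J P)
    (hS2 : ∀ x ∈ jd br J P, ∀ y ∈ jd br J P, ∀ v,
      Ac br J x (At (Ac br J) y v) = At (Ac br J) y (Ac br J x v)) :
    ∀ x ∈ P, ∀ y ∈ P, ∀ v, Ac br J x (At (Ac br J) y v) = At (Ac br J) y (Ac br J x v) := by
  -- `[A b, At x] = 0`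
  have g1 : ∀ b ∈ P, b ∈ (jd br J P)ᗮ → ∀ x ∈ jd br J P, ∀ v,
      Ac br J b (At (Ac br J) x v) = At (Ac br J) x (Ac br J b v) := by
    intro b hbP hb x hx v
    have := h.up_C hA0 hQn hS1 (h.up_Q hA0 hQn hS1 hP hS2) hP hbP hb hx v
    rw [h.At_of_Ac (h.up_kill hA0 hQn hS1 hP hS2 hbP hb hx), add_zero] at this
    exact this
  have g2 : ∀ b ∈ P, b ∈ (jd br J P)ᗮ → ∀ x ∈ jd br J P, ∀ v,
      Ac br J x (At (Ac br J) b v) = At (Ac br J) b (Ac br J x v) := by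
    intro b hbP hb x hx v
    refine ext_inner_right ℝ fun z => ?_
    rw [inner_At, ← inner_At', inner_At, ← inner_At', g1 b hbP hb x hx]
  have hJP1 := h.jd_JSub hP
  have g3 : ∀ b ∈ P, b ∈ (jd br J P)ᗮ → ∀ b' ∈ P, b' ∈ (jd br J P)ᗮ → ∀ v,
      Ac br J b (At (Ac br J) b' v) = At (Ac br J) b' (Ac br J b v) := by
    have n1 : ∀ x ∈ P, x ∈ (jd br J P)ᗮ → ∀ v,
        Ac br J x (At (Ac br J) x v) = At (Ac br J) x (Ac br J x v) := fun x hx hx' v =>
      normal_of_norm (Ac br J x) (h.d_norm hA0 hQn hP hx hx') v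
    have h1 : ∀ x ∈ P, x ∈ (jd br J P)ᗮ → ∀ y ∈ P, y ∈ (jd br J P)ᗮ → ∀ v,
        Ac br J x (At (Ac br J) y v) + Ac br J y (At (Ac br J) x v) =
        At (Ac br J) x (Ac br J y v) + At (Ac br J) y (Ac br J x v) := by
      intro x hx hx' y hy hy' v
      have e1 := n1 (x + y) (Submodule.add_mem _ hx hy) (Submodule.add_mem _ hx' hy') v
      simp only [At_add, map_add, LinearMap.add_apply] at e1
      have e2 := n1 x hx hx' v
      have e3 := n1 y hy hy' v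
      rw [e2, e3] at e1
      have e4 : At (Ac br J) x (Ac br J x v) + Ac br J y (At (Ac br J) x v) +
          (Ac br J x (At (Ac br J) y v) + At (Ac br J) y (Ac br J y v)) =
          At (Ac br J) x (Ac br J x v) + At (Ac br J) x (Ac br J y v) +
          (At (Ac br J) y (Ac br J x v) + At (Ac br J) y (Ac br J y v)) := by
        rw [e1]; abel
      have e5 : (Ac br J x (At (Ac br J) y v) + Ac br J y (At (Ac br J) x v)) +
          (At (Ac br J) x (Ac br J x v) + At (Ac br J) y (Ac br J y v)) =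
          (At (Ac br J) x (Ac br J y v) + At (Ac br J) y (Ac br J x v)) +
          (At (Ac br J) x (Ac br J x v) + At (Ac br J) y (Ac br J y v)) := by
        calc _ = At (Ac br J) x (Ac br J x v) + Ac br J y (At (Ac br J) x v) +
          (Ac br J x (At (Ac br J) y v) + At (Ac br J) y (Ac br J y v)) := by abel
          _ = _ := e4
          _ = _ := by abel
      exact add_right_cancel e5
    intro x hx hx' y hy hy' v
    have h2 := h1 x hx hx' y hy hy' v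
    have h3 := h1 x hx hx' (J y) (hP.cJ _ hy) (h.JSub_perp hJP1 hy') v
    simp only [h.chern.A1, h.chern.A2, h.chern.At1, h.chern.At2, map_neg, ← sub_eq_add_neg] at h3
    rw [← map_sub] at h3
    have h4 : J (Ac br J x (At (Ac br J) y v) - Ac br J y (At (Ac br J) x v)) =
        J (At (Ac br J) y (Ac br J x v) - At (Ac br J) x (Ac br J y v)) := by
      rw [h3, map_sub]; abel
    have h5 := h.chern.J_inj h4
    have h6 : (2 : ℝ) • Ac br J x (At (Ac br J) y v) = (2 : ℝ) • At (Ac br J) y (Ac br J x v) := by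
      rw [two_smul, two_smul]
      calc _ = (Ac br J x (At (Ac br J) y v) + Ac br J y (At (Ac br J) x v)) +
            (Ac br J x (At (Ac br J) y v) - Ac br J y (At (Ac br J) x v)) := by abel
        _ = _ := by rw [h2, h5]; abel
    exact smul_right_injective _ (two_ne_zero' ℝ) h6
  intro x hx y hy v
  set x1 := pr (jd br J P) x with hx1
  set y1 := pr (jd br J P) y with hy1
  have mx : x1 ∈ jd br J P := pr_mem _ _
  have my : y1 ∈ jd br J P := pr_mem _ _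
  have bx : x - x1 ∈ P := Submodule.sub_mem _ hx (jd_le hP mx)
  have by' : y - y1 ∈ P := Submodule.sub_mem _ hy (jd_le hP my)
  have ox : x - x1 ∈ (jd br J P)ᗮ := sub_pr_mem _ _
  have oy : y - y1 ∈ (jd br J P)ᗮ := sub_pr_mem _ _
  have ex : x = x1 + (x - x1) := by abel
  have ey : y = y1 + (y - y1) := by abel
  rw [ex, ey]
  simp only [At_add, map_add, LinearMap.add_apply]
  rw [hS2 x1 mx y1 my v, g2 _ by' oy x1 mx v, g1 _ bx ox y1 my v, g3 _ bx ox _ by' oy v]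
  abel

end up

/-- (S1) and (S2) for the whole algebra make the curvature vanish -/
theorem flat_of_S (h1 : ∀ x y v, Ac br J (Ac br J x y) v = 0)
    (h2 : ∀ x y v, Ac br J x (At (Ac br J) y v) = At (Ac br J) y (Ac br J x v)) (x y v : E) :
    (Ac br J x - At (Ac br J) x) ((Ac br J y - At (Ac br J) y) v) -
      (Ac br J y - At (Ac br J) y) ((Ac br J x - At (Ac br J) x) v) -
      (Ac br J (br x y) - At (Ac br J) (br x y)) v = 0 := by
  have hcomm : ∀ x y v, Ac br J x (Ac br J y v) = Ac br J y (Ac br J x v) := by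
    intro x y v
    have e1 : LinearMap.adjoint (At (Ac br J) y) = Ac br J y := LinearMap.adjoint_adjoint _
    have e2 := fuglede (Ac br J x) (At (Ac br J) y)
      (by rw [e1]; ext w; exact (h2 y y w).symm) (by ext w; exact h2 x y w)
    rw [e1] at e2
    exact LinearMap.congr_fun e2 v
  have hz : ∀ v, Ac br J (br x y) v = 0 := by
    intro v
    have e1 := h.rep x y v
    rw [hcomm x y v, sub_self] at e1
    have e2 := (smul_eq_zero.1 e1.symm).resolve_left (by norm_num)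
    have e3 := h.link x y
    have e4 : Ac br J ((1 / 2 : ℝ) • (br x y + br (J x) (J y))) v = 0 := by
      rw [← e3, map_sub, LinearMap.sub_apply, h1, h1, sub_zero]
    rw [map_smul, LinearMap.smul_apply] at e4
    have e5 := (smul_eq_zero.1 e4).resolve_left (by norm_num)
    have e6 : (2 : ℝ) • br x y = (br x y - br (J x) (J y)) + (br x y + br (J x) (J y)) := by
      rw [two_smul]; abel
    have e7 : Ac br J ((2 : ℝ) • br x y) v = 0 := by
      rw [e6, map_add, LinearMap.add_apply, e2, e5, add_zero]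
    rw [map_smul, LinearMap.smul_apply] at e7
    exact (smul_eq_zero.1 e7).resolve_left (by norm_num)
  have hz2 : At (Ac br J) (br x y) v = 0 := h.At_of_Ac hz v
  have h3 : At (Ac br J) x (At (Ac br J) y v) = At (Ac br J) y (At (Ac br J) x v) := by
    refine ext_inner_right ℝ fun z => ?_
    rw [inner_At, inner_At, inner_At, inner_At, hcomm]
  simp only [LinearMap.sub_apply, map_sub]
  rw [hz v, hz2, h3, hcomm x y, h2 x y, h2 y x]
  abel

end HermLie

end Pool.Agent.Lib.MP_a150d7_gt
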